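import Mathlib
import Pool.Agent.H36.HY.Degree

/-!
# MP_106b1a_co: closed walks through small vertices exclude polynomials in `x ^ (2 ^ a)`
helper36
-/

namespace Pool.Agent.H36.HZ

open Finset Configuration Pool.Agent.H53.OM Pool.Agent.H36.HY Pool.Agent.H46.Hyp Polynomial
open scoped LinearAlgebra.Projectivization

lemma not_dvd_of_gap {n a T x s : ℕ} (hn : 0 < n) (hT : 2 ^ a ∣ T) (hx : T = x + (2 ^ n - 1) * s)
    (hs0 : 0 < s) (hs : s < 2 ^ a) : ¬ 2 ^ a ∣ x := by
  intro h
  have h1 : 2 ^ a ∣ (2 ^ n - 1) * s := by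
    have h2 : 2 ^ a ∣ x + (2 ^ n - 1) * s := by rw [← hx]; exact hT
    exact (Nat.dvd_add_right h).1 h2
  have h2 : Nat.Coprime (2 ^ a) (2 ^ n - 1) := by
    apply Nat.Coprime.pow_left
    rw [Nat.coprime_two_left, Nat.odd_iff]
    obtain ⟨m, rfl⟩ : ∃ m, n = m + 1 := ⟨n - 1, by omega⟩
    have h3 : 2 ^ (m + 1) = 2 * 2 ^ m := by rw [pow_succ]; ring
    have h4 : 0 < 2 ^ m := by positivity
    omega
  have h3 := Nat.le_of_dvd hs0 (h2.dvd_of_dvd_mul_left h1)
  omega

variable {K : Type} [Field K] [Fintype K] [DecidableEq K]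

/-- closed walks through a vertex `v < 2 ^ a` exclude all o-polynomials in `x ^ (2 ^ a)` -/
theorem not_hyperoval_of_closed_walk {n d a v : ℕ} (hn : 0 < n) (hK : Fintype.card K = 2 ^ n)
    (f : K[X]) (hd : f.natDegree = d) (hsupp : ∀ e, f.coeff e ≠ 0 → 2 ^ a ∣ e)
    (hv0 : 0 < v) (hva : v < 2 ^ a) (hvd : v + 1 < d) (hw : Walk (d - 1) n v v) :
    ¬ IsHyperoval (ℙ K (Fin 3 → K)) (ℙ K (Fin 3 → K)) (oSet K fun x => f.eval x) := by
  rintro ⟨_, hH⟩
  have h2 := two_eq_zero hn hK
  have hinj := inj_of_arc hH
  have h2n : 2 ≤ 2 ^ n := by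
    calc 2 = 2 ^ 1 := rfl
      _ ≤ 2 ^ n := Nat.pow_le_pow_right (by norm_num) hn
  have hfne : f ≠ 0 := by
    intro h
    rw [h, natDegree_zero] at hd
    omega
  have had : 2 ^ a ∣ d := by
    apply hsupp
    rw [← hd, coeff_natDegree]
    exact leadingCoeff_ne_zero.2 hfne
  have hpow : ∀ b c, ¬ 2 ^ a ∣ c → (f ^ b).coeff c = 0 := by
    intro b c hc
    have h3 : f = expand K (2 ^ a) (contract (2 ^ a) f) := by
      ext e
      rw [coeff_expand (by positivity)]
      split_ifs with h
      · rw [coeff_contract (by positivity), Nat.div_mul_cancel h]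
      · by_contra hne
        exact h (hsupp e hne)
    rw [h3, ← map_pow, coeff_expand (by positivity), if_neg hc]
  have hdeg : ∀ b, (f ^ b).natDegree = b * d := by
    intro b
    rw [natDegree_pow, hd]
  have htop : ∀ b, (f ^ b).coeff (b * d) ≠ 0 := by
    intro b
    rw [← hdeg b, coeff_natDegree]
    exact leadingCoeff_ne_zero.2 (pow_ne_zero _ hfne)
  obtain ⟨b, e, hbe, heq, hdom⟩ := hw.digits
  set c := b + e with hc
  obtain ⟨M, hM⟩ : ∃ M, 2 ^ n = M + 1 := ⟨2 ^ n - 1, by omega⟩
  have hM1 : 2 ^ n - 1 = M := by omega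
  have hbd : b * d = c + M * v := by
    obtain ⟨κ, hκ⟩ : ∃ κ, d = κ + 1 := ⟨d - 1, by omega⟩
    rw [hκ] at heq ⊢
    rw [Nat.add_sub_cancel, hM] at heq
    rw [mul_add, mul_one, mul_comm b κ]
    have h3 : (M + 1) * v = M * v + v := by ring
    omega
  have hMv : 0 < M * v := Nat.mul_pos (by omega) hv0
  have hb0 : 0 < b := by
    rcases Nat.eq_zero_or_pos b with h | h
    · rw [h, zero_mul] at hbd
      omega
    · exact h
  have hbq : b < M := by
    by_contra hcon
    have h3 : b = M := by omega
    have h4 : c = M := by omega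
    rw [h3, h4] at hbd
    have h5 : M * d = M * (v + 1) := by rw [hbd]; ring
    have h6 := Nat.eq_of_mul_eq_mul_left (show 0 < M by omega) h5
    omega
  have hbda : 2 ^ a ∣ b * d := had.mul_left b
  rcases Nat.lt_or_ge c M with hcq | hcq
  · -- the sum with exponents `b` and `q - 1 - c`
    have h3 : ∑ y : K, f.eval y ^ b * y ^ (M - c) = 0 := by
      apply mixed_sum h2 hH (by omega) (by rw [hK]; omega) (by rw [hK]; omega)
      rw [← Nat.choose_symm_add, odd_choose]
      intro j hj
      have h4 := dom_disjoint j b e hdom hj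
      have hjn : j < n := by
        by_contra hge
        have := Nat.testBit_lt_two_pow (lt_of_lt_of_le (show b < 2 ^ n by omega)
          (Nat.pow_le_pow_right (by norm_num) (not_lt.1 hge)))
        rw [this] at hj
        exact absurd hj (by simp)
      rw [show b + (M - c) = 2 ^ n - (e + 1) by omega,
        Nat.testBit_two_pow_sub_succ (by omega)]
      simp [hjn, h4]
    have h4 : ∀ y : K, f.eval y ^ b * y ^ (M - c) = (f ^ b).eval y * y ^ (M - c) := by
      intro y
      rw [eval_pow]
    rw [sum_congr rfl (fun y _ => h4 y), sum_eval_mul_pow (f ^ b) _ (b * d) (by omega) (hdeg b).le,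
      neg_eq_zero, sum_eq_single (b * d)] at h3
    · exact htop b h3
    · intro x hx hxne
      rw [mem_filter, mem_range, hK, hM1] at hx
      obtain ⟨hx1, w, hw⟩ := hx
      apply hpow
      obtain ⟨w', rfl⟩ : ∃ w', w = w' + 1 := by
        refine ⟨w - 1, ?_⟩
        rcases Nat.eq_zero_or_pos w with h0 | h0
        · rw [h0, mul_zero] at hw; omega
        · omega
      rw [mul_add, mul_one] at hw
      have hw2 : w' < v := by
        by_contra hcon
        have h5 : M * v ≤ M * w' := Nat.mul_le_mul_left _ (not_lt.1 hcon)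
        omega
      obtain ⟨s, hs⟩ : ∃ s, v = w' + s := ⟨v - w', by omega⟩
      refine not_dvd_of_gap (n := n) (s := s) hn hbda ?_ (by omega) (by omega)
      rw [hM1, hbd, hs, mul_add]
      omega
    · intro hx
      exfalso
      apply hx
      rw [mem_filter, mem_range, hK, hM1]
      refine ⟨by omega, v + 1, ?_⟩
      rw [mul_add, mul_one]
      omega
  · -- `c = q - 1`: the sum of the `b`-th powers of the values
    have hcq' : c = M := by omega
    have hbij : Function.Bijective (fun x => f.eval x) := Finite.injective_iff_bijective.1 hinj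
    have h3 : ∑ y : K, f.eval y ^ b = 0 := by
      rw [hbij.sum_comp (fun y => y ^ b)]
      exact FiniteField.sum_pow_lt_card_sub_one K b (by rw [hK]; omega)
    have h4 : ∀ y : K, f.eval y ^ b = ∑ e ∈ range (b * d + 1), (f ^ b).coeff e * y ^ e := by
      intro y
      rw [← eval_pow, eval_eq_sum_range' (show (f ^ b).natDegree < b * d + 1 by
        rw [hdeg b]; exact Nat.lt_succ_self _)]
    rw [sum_congr rfl (fun y _ => h4 y), sum_comm] at h3
    have h5 : ∀ x ∈ range (b * d + 1), ∑ y : K, (f ^ b).coeff x * y ^ x =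
        if x = b * d then -(f ^ b).coeff (b * d) else 0 := by
      intro x hx
      rw [mem_range] at hx
      rw [← mul_sum]
      rcases Nat.eq_zero_or_pos x with h0 | h0
      · subst h0
        rw [if_neg (by omega)]
        have h6 : (∑ y : K, y ^ 0 : K) = 0 := by
          simp only [pow_zero, sum_const, card_univ, nsmul_eq_mul, mul_one, hK]
          push_cast
          rw [h2, zero_pow (by omega)]
        rw [h6, mul_zero]
      · rw [sum_pow_eq h0]
        by_cases hxb : x = b * d
        · rw [if_pos hxb, hxb, if_pos]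
          · ring
          · rw [hK, hM1]
            exact ⟨v + 1, by rw [hbd, hcq']; ring⟩
        · rw [if_neg hxb]
          split_ifs with h
          · obtain ⟨w, hw⟩ := h
            rw [hK, hM1] at hw
            have hw2 : w < v + 1 := by
              by_contra hcon
              have h6 : M * (v + 1) ≤ M * w := Nat.mul_le_mul_left _ (not_lt.1 hcon)
              rw [mul_add, mul_one] at h6
              omega
            have hw0 : 0 < w := by
              rcases Nat.eq_zero_or_pos w with h0' | h0'
              · rw [h0', mul_zero] at hw; omega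
              · exact h0'
            obtain ⟨s, hs⟩ : ∃ s, v + 1 = w + s := ⟨v + 1 - w, by omega⟩
            rw [hpow b x, zero_mul]
            refine not_dvd_of_gap (n := n) (s := s) hn hbda ?_ (by omega) (by omega)
            rw [hM1, hbd, hcq', hw, ← mul_add, ← hs]
            ring
          · rw [mul_zero]
    rw [sum_congr rfl h5, sum_ite_eq', if_pos (mem_range.2 (by omega)), neg_eq_zero] at h3
    exact htop b h3

end Pool.Agent.H36.HZ
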