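import Mathlib
import Pool.Agent.H36.HY.WalkDom

/-!
# MP_106b1a_co: walks for degrees `2 ^ a * m`
helper36
-/

namespace Pool.Agent.H36.HZ

open Pool.Agent.H53.OM Pool.Agent.H36.HY

lemma dom_refl (x : ℕ) : Dom x x := fun _ h => h

lemma dom_trans {x y z : ℕ} (h1 : Dom x y) (h2 : Dom y z) : Dom x z := fun j h => h2 j (h1 j h)

lemma dom_zero (y : ℕ) : Dom 0 y := fun j h => by simp at h

lemma dom_of_parts {p x y : ℕ} (h1 : Dom (x % 2 ^ p) y) (h2 : Dom (x / 2 ^ p) (y / 2 ^ p)) :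
    Dom x y := by
  intro j hj
  rcases Nat.lt_or_ge j p with h | h
  · apply h1
    rw [Nat.testBit_mod_two_pow]
    simp [h, hj]
  · have h3 := h2 (j - p) (by
      rw [Nat.testBit_div_two_pow, Nat.sub_add_cancel h]
      exact hj)
    rwa [Nat.testBit_div_two_pow, Nat.sub_add_cancel h] at h3

lemma dom_add_high {p x y t : ℕ} (hx : x < 2 ^ p) (hty : Dom t y) :
    Dom (x + 2 ^ p * t) (x + 2 ^ p * y) := by
  intro j hj
  rw [add_comm, Nat.testBit_two_pow_mul_add _ hx] at hj ⊢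
  split_ifs at hj ⊢ with h
  · exact hj
  · exact hty _ hj

lemma dom_low {p x : ℕ} (hx : x < 2 ^ p) (Z : ℕ) : Dom x (x + 2 ^ p * Z) := by
  have := dom_add_high (t := 0) (y := Z) hx (dom_zero _)
  simpa using this

lemma dom_ones {p x : ℕ} (hx : x < 2 ^ p) (Z : ℕ) : Dom x ((2 ^ p - 1) + 2 ^ p * Z) := by
  intro j hj
  have hp : 0 < 2 ^ p := by positivity
  rw [add_comm, Nat.testBit_two_pow_mul_add _ (by omega)]
  have h : j < p := by
    by_contra hcon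
    rw [Nat.testBit_lt_two_pow (lt_of_lt_of_le hx
      (Nat.pow_le_pow_right (by norm_num) (not_lt.1 hcon)))] at hj
    exact absurd hj (by simp)
  rw [if_pos h, Nat.testBit_two_pow_sub_one]
  simp [h]

/-- from a vertex `v < 2 ^ a` -/
theorem walk_hub {a m v N i : ℕ} (ha : 1 ≤ a) (hm : 0 < m) (hv : v < 2 ^ a)
    (hN : N < 2 ^ (a + i)) (h1 : Dom (N % 2 ^ a) v) (h2 : Dom (N / 2 ^ a) (m * N)) :
    Walk (2 ^ a * m - 1) (a + i) v (m * N / 2 ^ i) := by
  obtain ⟨b, rfl⟩ : ∃ b, a = b + 1 := ⟨a - 1, by omega⟩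
  have hp : 2 ^ (b + 1) = 2 * 2 ^ b := by rw [pow_succ]; ring
  have hk0 : 0 < 2 ^ b * m := by positivity
  have hκ : (2 ^ (b + 1) * m - 1) % 2 = 1 := by
    rw [hp, mul_assoc]; omega
  have hκ1 : 2 ^ (b + 1) * m - 1 + 1 = 2 ^ (b + 1) * m := by
    rw [hp, mul_assoc]; omega
  have hdiv : (v + 2 ^ (b + 1) * m * N) / 2 ^ (b + 1) = m * N := by
    rw [mul_assoc, Nat.add_mul_div_left _ _ (by positivity), Nat.div_eq_of_lt hv, zero_add]
  have h3 := walk_of_dom (n := b + 1 + i) (c := v) (b := N) hκ hN (by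
    rw [hκ1]
    apply dom_of_parts (p := b + 1)
    · refine dom_trans h1 ?_
      rw [mul_assoc]
      exact dom_low hv _
    · rw [hdiv]
      exact h2)
  rw [hκ1, pow_add 2 (b + 1) i, ← Nat.div_div_eq_div_mul, hdiv] at h3
  exact h3

/-- from the vertices `2 ^ a * (e + 1) - 1` -/
theorem walk_exit {a m v J X e : ℕ} (ha : 1 ≤ a) (hm : 0 < m) (hv : v < 2 ^ a)
    (hX : X / 2 ^ J = v) (hXe : X % m = e) (hd : Dom (X / (2 ^ a * m)) X) :
    Walk (2 ^ a * m - 1) (a + J) (2 ^ a * (e + 1) - 1) v := by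
  obtain ⟨b, rfl⟩ : ∃ b, a = b + 1 := ⟨a - 1, by omega⟩
  have hp : 2 ^ (b + 1) = 2 * 2 ^ b := by rw [pow_succ]; ring
  have hA : 0 < 2 ^ (b + 1) := by positivity
  have hk0 : 0 < 2 ^ b * m := by positivity
  have hκ : (2 ^ (b + 1) * m - 1) % 2 = 1 := by
    rw [hp, mul_assoc]; omega
  have hκ1 : 2 ^ (b + 1) * m - 1 + 1 = 2 ^ (b + 1) * m := by
    rw [hp, mul_assoc]; omega
  have hXN : m * (X / m) + e = X := by rw [← hXe]; exact Nat.div_add_mod X m
  have hXlt : X < 2 ^ J * 2 ^ (b + 1) := by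
    have h1 : X < 2 ^ J * (v + 1) := by
      rw [← hX]
      exact Nat.lt_mul_div_succ _ (by positivity)
    calc X < 2 ^ J * (v + 1) := h1
      _ ≤ 2 ^ J * 2 ^ (b + 1) := Nat.mul_le_mul_left _ hv
  have hNlt : X / m < 2 ^ (b + 1 + J) := by
    calc X / m ≤ X := Nat.div_le_self _ _
      _ < 2 ^ J * 2 ^ (b + 1) := hXlt
      _ = 2 ^ (b + 1 + J) := by rw [pow_add]; ring
  have hval : 2 ^ (b + 1) * (e + 1) - 1 + 2 ^ (b + 1) * m * (X / m)
      = (2 ^ (b + 1) - 1) + 2 ^ (b + 1) * X := by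
    have h1 : 2 ^ (b + 1) * (e + 1) - 1 = 2 ^ (b + 1) * e + (2 ^ (b + 1) - 1) := by
      rw [mul_add, mul_one]; omega
    rw [h1]
    conv_rhs => rw [← hXN]
    ring
  have hdiv : ((2 ^ (b + 1) - 1) + 2 ^ (b + 1) * X) / 2 ^ (b + 1) = X := by
    rw [Nat.add_mul_div_left _ _ hA, Nat.div_eq_of_lt (by omega), zero_add]
  have h3 := walk_of_dom (n := b + 1 + J) (c := 2 ^ (b + 1) * (e + 1) - 1) (b := X / m) hκ hNlt (by
    rw [hκ1, hval]
    apply dom_of_parts (p := b + 1)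
    · exact dom_ones (Nat.mod_lt _ hA) _
    · rw [hdiv, Nat.div_div_eq_div_mul, mul_comm m]
      exact hd)
  rw [hκ1, hval, pow_add 2 (b + 1) J, ← Nat.div_div_eq_div_mul, hdiv, hX] at h3
  exact h3

/-- halvings modulo `m` -/
theorem walk_far {a m v T : ℕ} (ha : 1 ≤ a) (hm : m % 2 = 1)
    (h : ∀ e < m, Walk (2 ^ a * m - 1) T (2 ^ a * (e + 1) - 1) v) :
    ∀ r, ∀ e < m, Walk (2 ^ a * m - 1) (T + r) (2 ^ a * (e + 1) - 1) v := by
  obtain ⟨b, rfl⟩ : ∃ b, a = b + 1 := ⟨a - 1, by omega⟩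
  have hp : 2 ^ (b + 1) = 2 * 2 ^ b := by rw [pow_succ]; ring
  have hA : 0 < 2 ^ b := by positivity
  intro r
  induction r with
  | zero => exact h
  | succ r ih =>
    intro e he
    rcases Nat.mod_two_eq_zero_or_one (e + 1) with h0 | h0
    · obtain ⟨f, hf⟩ : ∃ f, e + 1 = 2 * (f + 1) := ⟨(e + 1) / 2 - 1, by omega⟩
      refine ⟨2 ^ (b + 1) * (f + 1) - 1, ?_, ih f (by omega)⟩
      right; left
      rw [hf, hp]
      have h1 : 2 * 2 ^ b * (2 * (f + 1)) = 2 * (2 * 2 ^ b * (f + 1)) := by ring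
      have h2 : 0 < 2 * 2 ^ b * (f + 1) := by positivity
      rw [h1]
      omega
    · obtain ⟨f, hf⟩ : ∃ f, e + 1 + m = 2 * (f + 1) := ⟨(e + 1 + m) / 2 - 1, by omega⟩
      refine ⟨2 ^ (b + 1) * (f + 1) - 1, ?_, ih f (by omega)⟩
      right; right
      have h1 : 2 ^ (b + 1) * (e + 1) + 2 ^ (b + 1) * m = 2 * (2 ^ (b + 1) * (f + 1)) := by
        rw [← mul_add, hf]; ring
      have h2 : 0 < 2 ^ b * (e + 1) := by positivity
      have h3 : 0 < 2 ^ b * m := by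
        have : 0 < m := by omega
        positivity
      have h4 : 0 < 2 ^ b * (f + 1) := by positivity
      rw [hp, mul_assoc, mul_assoc, mul_assoc] at h1
      rw [hp, mul_assoc, mul_assoc, mul_assoc]
      omega

/-- every residue class is reached in `J` steps -/
def Cov (a m v J : ℕ) : Prop :=
  ∀ e < m, ∃ X, X / 2 ^ J = v ∧ X % m = e ∧ Dom (X / (2 ^ a * m)) X

theorem closed_walk {a m v N i J n : ℕ} (ha : 1 ≤ a) (hm : m % 2 = 1) (hv : v < 2 ^ a)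
    (hN : N < 2 ^ (a + i)) (h1 : Dom (N % 2 ^ a) v) (h2 : Dom (N / 2 ^ a) (m * N))
    (h3 : m * N / 2 ^ i % 2 ^ a = 2 ^ a - 1) (hcov : Cov a m v J) (hn : a + i + (a + J) ≤ n) :
    Walk (2 ^ a * m - 1) n v v := by
  have hm0 : 0 < m := by omega
  have hA : 0 < 2 ^ a := by positivity
  have hw1 := walk_hub ha hm0 hv hN h1 h2
  obtain ⟨z, hz⟩ : ∃ z, m * N / 2 ^ i = z := ⟨_, rfl⟩
  rw [hz] at hw1 h3
  have hlt : z < 2 ^ a * m := by
    rw [← hz, Nat.div_lt_iff_lt_mul (by positivity)]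
    calc m * N < m * 2 ^ (a + i) := Nat.mul_lt_mul_of_pos_left hN hm0
      _ = 2 ^ a * m * 2 ^ i := by rw [pow_add]; ring
  have he : z / 2 ^ a < m := by
    rw [Nat.div_lt_iff_lt_mul hA, mul_comm]
    exact hlt
  have hz2 : z = 2 ^ a * (z / 2 ^ a + 1) - 1 := by
    have h4 := Nat.div_add_mod z (2 ^ a)
    rw [h3] at h4
    rw [mul_add, mul_one]
    omega
  have hw2 := walk_far (T := a + J) (v := v) ha hm (fun e he => by
    obtain ⟨X, hX1, hX2, hX3⟩ := hcov e he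
    exact walk_exit ha hm0 hv hX1 hX2 hX3) (n - (a + i + (a + J))) _ he
  rw [← hz2] at hw2
  have h5 := hw1.append hw2
  rwa [show a + i + (a + J + (n - (a + i + (a + J)))) = n by omega] at h5

end Pool.Agent.H36.HZ
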