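import Mathlib
import Pool.Agent.H36.HZ.Walks

/-!
# MP_106b1a_co: every residue class is reached
helper36
-/

namespace Pool.Agent.H36.HZ

open Finset Pool.Agent.H53.OM Pool.Agent.H36.HY

lemma exists_res (A : ℕ) {m e : ℕ} (he : e < m) : ∃ y < m, (A + y) % m = e := by
  refine ⟨(e + (m - A % m)) % m, Nat.mod_lt _ (by omega), ?_⟩
  rw [Nat.add_mod_mod]
  have h1 := Nat.div_add_mod A m
  have h2 := Nat.mod_lt A (show 0 < m by omega)
  have h3 : A + (e + (m - A % m)) = e + m * (A / m + 1) := by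
    rw [mul_add, mul_one]
    omega
  rw [h3, Nat.add_mul_mod_self_left, Nat.mod_eq_of_lt he]

theorem cov_small {a m l v : ℕ} (ha : 1 ≤ a) (h1 : 2 ^ l < m) (h2 : m < 2 ^ (l + 1))
    (hv : v < 2 ^ (a - 1)) : Cov a m v (l + 1) := by
  intro e he
  obtain ⟨y, hy, hye⟩ := exists_res (2 ^ (l + 1) * v) he
  have hlt : 2 ^ (l + 1) * v + y < 2 ^ a * m := by
    have h3 : 2 ^ (l + 1) * (v + 1) ≤ 2 ^ (l + 1) * 2 ^ (a - 1) := Nat.mul_le_mul_left _ hv
    have h4 : 2 ^ (l + 1) * 2 ^ (a - 1) = 2 ^ a * 2 ^ l := by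
      rw [← pow_add, ← pow_add]; congr 1; omega
    have h5 : 2 ^ a * 2 ^ l < 2 ^ a * m := Nat.mul_lt_mul_of_pos_left h1 (by positivity)
    rw [mul_add, mul_one] at h3
    omega
  refine ⟨2 ^ (l + 1) * v + y, ?_, hye, ?_⟩
  · rw [Nat.mul_add_div (by positivity), Nat.div_eq_of_lt (by omega), add_zero]
  · rw [Nat.div_eq_of_lt hlt]
    exact dom_zero _

/-- the spread lemma (numerical form) -/
theorem spread_le (N B c k u : ℤ) (P : Finset ℕ) (hB : N ≤ 2 * B) (hB1 : B < N)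
    (hku : N ∣ k * u - 1) (hN : ∀ j ∈ P, (2 : ℤ) ^ j ∣ N ∧ ¬ N ∣ (2 : ℤ) ^ j)
    (hbad : ∀ S ⊆ P, B ≤ ((∑ j ∈ S, (2 : ℤ) ^ j - c) * u) % N) :
    ∑ j ∈ P, (2 : ℤ) ^ j ≤ N - 1 - B := by
  classical
  have hN0 : 0 < N := by linarith [hB, hB1]
  set T : Finset ℕ → ℤ := fun S => ((∑ j ∈ S, (2 : ℤ) ^ j - c) * u) % N with hT
  have hTlt : ∀ S, T S < N := fun S => Int.emod_lt_of_pos _ hN0
  have hTge : ∀ S ⊆ P, B ≤ T S := hbad
  have hTmod : ∀ S, N ∣ T S - (∑ j ∈ S, (2 : ℤ) ^ j - c) * u := by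
    intro S
    have := Int.emod_add_mul_ediv ((∑ j ∈ S, (2 : ℤ) ^ j - c) * u) N
    refine ⟨-(((∑ j ∈ S, (2 : ℤ) ^ j - c) * u) / N), ?_⟩
    simp only [hT]
    linarith
  set δ : ℕ → ℤ := fun j => T {j} - T ∅ with hδ
  have hδmod : ∀ j, N ∣ δ j - 2 ^ j * u := by
    intro j
    have h1 := hTmod {j}
    have h2 := hTmod ∅
    rw [sum_singleton] at h1
    rw [sum_empty] at h2
    have h3 := dvd_sub h1 h2
    have h4 : δ j - 2 ^ j * u = T {j} - (2 ^ j - c) * u - (T ∅ - (0 - c) * u) := by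
      simp only [hδ]; ring
    rw [h4]
    exact h3
  have hδabs : ∀ j ∈ P, (2 : ℤ) ^ j ≤ |δ j| := by
    intro j hj
    have h1 : (2 : ℤ) ^ j ∣ δ j := by
      have h2 := (hN j hj).1.trans (hδmod j)
      have h3 : (2 : ℤ) ^ j ∣ 2 ^ j * u := dvd_mul_right _ _
      have := dvd_add h2 h3
      simpa using this
    have h2 : δ j ≠ 0 := by
      intro h0
      have h3 := hδmod j
      rw [h0, zero_sub] at h3
      have h4 : N ∣ 2 ^ j * u := by simpa using h3
      have h5 : N ∣ 2 ^ j * (k * u) := by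
        have := h4.mul_left k
        rwa [show k * (2 ^ j * u) = 2 ^ j * (k * u) by ring] at this
      have h6 : N ∣ 2 ^ j * (k * u - 1) := hku.mul_left _
      have h7 := dvd_sub h5 h6
      rw [show (2 : ℤ) ^ j * (k * u) - 2 ^ j * (k * u - 1) = 2 ^ j by ring] at h7
      exact (hN j hj).2 h7
    exact Int.le_of_dvd (abs_pos.2 h2) ((dvd_abs _ _).2 h1)
  have hins : ∀ S ⊆ P, ∀ j ∈ P, j ∉ S → T (insert j S) = T S + δ j := by
    intro S hS j hj hjS
    have h1 := hTmod (insert j S)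
    have h2 := hTmod S
    rw [sum_insert hjS] at h1
    have h3 : N ∣ T (insert j S) - (T S + δ j) := by
      have h4 := dvd_sub (dvd_sub h1 h2) (hδmod j)
      rw [show T (insert j S) - (2 ^ j + ∑ x ∈ S, 2 ^ x - c) * u - (T S - (∑ j ∈ S, 2 ^ j - c) * u)
        - (δ j - 2 ^ j * u) = T (insert j S) - (T S + δ j) by ring] at h4
      exact h4
    have h5 : |T (insert j S) - (T S + δ j)| < N := by
      have a1 := hTlt (insert j S)
      have a2 := hTge (insert j S) (insert_subset hj hS)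
      have a3 := hTlt S
      have a4 := hTge S hS
      have a5 := hTlt {j}
      have a6 := hTge {j} (by simpa using hj)
      have a7 := hTlt ∅
      have a8 := hTge ∅ (empty_subset _)
      simp only [hδ]
      rw [abs_lt]
      constructor <;> linarith
    have h6 := Int.eq_zero_of_abs_lt_dvd h3 h5
    linarith
  have hsum : ∀ S ⊆ P, T S = T ∅ + ∑ j ∈ S, δ j := by
    intro S
    induction S using Finset.induction_on with
    | empty => intro _; simp
    | insert a s ha ih =>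
      intro hs
      have hs' : s ⊆ P := fun x hx => hs (mem_insert_of_mem hx)
      rw [hins s hs' a (hs (mem_insert_self _ _)) ha, ih hs', sum_insert ha]
      ring
  set Sp := P.filter (fun j => 0 < δ j) with hSp
  set Sm := P.filter (fun j => ¬ 0 < δ j) with hSm
  have hp1 := hsum Sp (filter_subset _ _)
  have hm1 := hsum Sm (filter_subset _ _)
  have habs : ∑ j ∈ P, |δ j| = ∑ j ∈ Sp, δ j - ∑ j ∈ Sm, δ j := by
    rw [← sum_filter_add_sum_filter_not P (fun j => 0 < δ j)]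
    have e1 : ∑ j ∈ P.filter (fun j => 0 < δ j), |δ j| = ∑ j ∈ Sp, δ j :=
      sum_congr rfl (fun j hj => abs_of_pos (mem_filter.1 hj).2)
    have e2 : ∑ j ∈ P.filter (fun j => ¬ 0 < δ j), |δ j| = - ∑ j ∈ Sm, δ j := by
      rw [← sum_neg_distrib]
      exact sum_congr rfl (fun j hj => abs_of_nonpos (not_lt.1 (mem_filter.1 hj).2))
    rw [e1, e2]
    ring
  have hge : ∑ j ∈ P, (2 : ℤ) ^ j ≤ ∑ j ∈ P, |δ j| := sum_le_sum hδabs
  have b1 := hTlt Sp
  have b2 := hTge Sm (filter_subset _ _)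
  linarith

/-- bits of `Q + ∑ S` for a set `S` of zero positions of `Q` -/
lemma dom_add_sum {Q j : ℕ} (hQ : Q < 2 ^ j) {S : Finset ℕ} (hS : S ⊆ zer Q j) :
    Dom Q (Q + ∑ i ∈ S, 2 ^ i) ∧ Q + ∑ i ∈ S, 2 ^ i < 2 ^ j := by
  have h1 := sum_bits Q j hQ
  have hdis : Disjoint ((range j).filter (fun i => Q.testBit i = true)) S := by
    rw [Finset.disjoint_left]
    intro x hx hxS
    have h2 := hS hxS
    rw [zer, mem_filter] at h2
    rw [mem_filter] at hx
    rw [h2.2] at hx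
    exact absurd hx.2 (by simp)
  constructor
  · intro i hi
    have h2 : Q + ∑ i ∈ S, 2 ^ i =
        ∑ i ∈ (range j).filter (fun i => Q.testBit i = true) ∪ S, 2 ^ i := by
      rw [sum_union hdis, h1]
    rw [h2, testBit_sum]
    simp only [mem_union, mem_filter, mem_range, decide_eq_true_eq]
    left
    refine ⟨?_, hi⟩
    by_contra hcon
    rw [Nat.testBit_lt_two_pow (lt_of_lt_of_le hQ
      (Nat.pow_le_pow_right (by norm_num) (not_lt.1 hcon)))] at hi
    exact absurd hi (by simp)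
  · have h3 := sum_zer Q j hQ
    have h4 : ∑ i ∈ S, 2 ^ i ≤ ∑ i ∈ zer Q j, 2 ^ i := sum_le_sum_of_subset hS
    omega

/-- coverage if the quotient is constant and smaller than the number of representatives -/
theorem cov_const {a m l j v Q : ℕ} (hodd : m % 2 = 1) (h1 : 2 ^ l < m) (h2 : m < 2 ^ (l + 1))
    (hj : 1 ≤ j) (hQ : Q < 2 ^ (l + j) / m)
    (hconst : ∀ X, X / 2 ^ (l + j) = v → X / (2 ^ a * m) = Q) : Cov a m v (l + j) := by
  intro e he
  obtain ⟨y, hy, hye⟩ := exists_res (2 ^ (l + j) * v) he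
  set B := 2 ^ (l + j) / m with hB
  set X0 := 2 ^ (l + j) * v + y with hX0
  have hm0 : 0 < m := by omega
  have hBj : B < 2 ^ j := by
    rw [hB, Nat.div_lt_iff_lt_mul hm0, pow_add, mul_comm]
    exact Nat.mul_lt_mul_of_pos_left h1 (by positivity)
  have hB2 : 2 ^ j ≤ 2 * B := by
    have h3 : 2 ^ (j - 1) ≤ B := by
      rw [hB, Nat.le_div_iff_mul_le hm0]
      calc 2 ^ (j - 1) * m ≤ 2 ^ (j - 1) * 2 ^ (l + 1) := Nat.mul_le_mul_left _ h2.le
        _ = 2 ^ (l + j) := by rw [← pow_add]; congr 1; omega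
    have h4 : 2 ^ j = 2 * 2 ^ (j - 1) := by
      rw [← pow_succ']; congr 1; omega
    omega
  have hmB : m * B ≤ 2 ^ (l + j) := Nat.mul_div_le _ _
  obtain ⟨u, hu⟩ : ∃ u : ℕ, ((2 ^ j : ℕ) : ℤ) ∣ (m : ℤ) * u - 1 := by
    have hcop : Nat.Coprime m (2 ^ j) := Nat.Coprime.pow_right _ (Nat.odd_iff.2 hodd).coprime_two_right
    have h1j : 1 < 2 ^ j := Nat.one_lt_two_pow (by omega)
    obtain ⟨w, hw⟩ := Nat.exists_mul_mod_eq_one_of_coprime hcop h1j
    refine ⟨w, ?_⟩
    have h3 : 1 ≡ m * w [MOD 2 ^ j] := by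
      rw [Nat.ModEq, Nat.mod_eq_of_lt h1j, hw.2]
    have := (Nat.modEq_iff_dvd).1 h3
    push_cast at this ⊢
    exact this
  by_contra hcon
  have hno : ∀ t, t < B → ¬ Dom Q (X0 + m * t) := by
    intro t ht hd
    apply hcon
    have h3 : (X0 + m * t) / 2 ^ (l + j) = v := by
      have h4 : m * (t + 1) ≤ m * B := Nat.mul_le_mul_left _ ht
      rw [mul_add, mul_one] at h4
      rw [hX0, add_assoc, Nat.mul_add_div (by positivity), Nat.div_eq_of_lt (by omega), add_zero]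
    refine ⟨X0 + m * t, h3, ?_, ?_⟩
    · rw [Nat.add_mul_mod_self_left]
      exact hye
    · rw [hconst _ h3]
      exact hd
  have hNpos : (0 : ℤ) < ((2 ^ j : ℕ) : ℤ) := by positivity
  have hjlt : ∀ i ∈ zer Q j, i < j := fun i hi => by
    rw [zer, mem_filter, mem_range] at hi
    exact hi.1
  have key := spread_le ((2 ^ j : ℕ) : ℤ) (B : ℤ) ((X0 : ℤ) - Q) (m : ℤ) (u : ℤ) (zer Q j)
    (by exact_mod_cast hB2) (by exact_mod_cast hBj) hu
    (by
      intro i hi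
      have hi' := hjlt i hi
      constructor
      · push_cast
        exact pow_dvd_pow 2 hi'.le
      · intro hd
        have : (2 ^ j : ℕ) ∣ 2 ^ i := by exact_mod_cast hd
        have := Nat.le_of_dvd (by positivity) this
        have h3 : 2 ^ i < 2 ^ j := Nat.pow_lt_pow_right (by norm_num) hi'
        omega)
    (by
      intro S hS
      by_contra hlt
      push Not at hlt
      set x : ℤ := (∑ j ∈ S, (2 : ℤ) ^ j - ((X0 : ℤ) - Q)) * u with hx
      have h0 : 0 ≤ x % ((2 ^ j : ℕ) : ℤ) := Int.emod_nonneg _ hNpos.ne'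
      obtain ⟨t, ht⟩ := Int.eq_ofNat_of_zero_le h0
      rw [ht] at hlt
      have htB : t < B := by exact_mod_cast hlt
      apply hno t htB
      have hmoddvd : ((2 ^ j : ℕ) : ℤ) ∣ (t : ℤ) - x := by
        rw [← ht]
        refine ⟨-(x / ((2 ^ j : ℕ) : ℤ)), ?_⟩
        have := Int.emod_add_mul_ediv x ((2 ^ j : ℕ) : ℤ)
        linarith
      obtain ⟨hd, hlt2⟩ := dom_add_sum (j := j) (by omega : Q < 2 ^ j) hS
      have h3 : (Q + ∑ i ∈ S, 2 ^ i) ≡ X0 + m * t [MOD 2 ^ j] := by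
        rw [Nat.modEq_iff_dvd]
        have h4 := hmoddvd.mul_left (m : ℤ)
        have h5 := hu.mul_left (∑ j ∈ S, (2 : ℤ) ^ j - ((X0 : ℤ) - Q))
        have h6 := dvd_add h4 h5
        rw [hx, show (m : ℤ) * ((t : ℤ) - (∑ j ∈ S, (2 : ℤ) ^ j - ((X0 : ℤ) - Q)) * u) +
          (∑ j ∈ S, (2 : ℤ) ^ j - ((X0 : ℤ) - Q)) * ((m : ℤ) * u - 1) =
          ((X0 : ℤ) + m * t) - (Q + ∑ j ∈ S, (2 : ℤ) ^ j) by ring] at h6
        push_cast
        push_cast at h6
        exact h6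
      have h4 : (X0 + m * t) % 2 ^ j = Q + ∑ i ∈ S, 2 ^ i := by
        have h5 := h3.symm
        rwa [Nat.ModEq, Nat.mod_eq_of_lt hlt2] at h5
      intro i hi
      have hij : i < j := by
        by_contra hge
        rw [Nat.testBit_lt_two_pow (lt_of_lt_of_le (show Q < 2 ^ j by omega)
          (Nat.pow_le_pow_right (by norm_num) (not_lt.1 hge)))] at hi
        exact absurd hi (by simp)
      have h5 := hd i hi
      rw [← h4, Nat.testBit_mod_two_pow] at h5
      simpa [hij] using h5)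
  have h3 := sum_zer Q j (by omega)
  have h4 : (∑ i ∈ zer Q j, 2 ^ i : ℕ) + 1 + B ≤ 2 ^ j := by
    have : ((∑ i ∈ zer Q j, 2 ^ i : ℕ) : ℤ) + 1 + B ≤ ((2 ^ j : ℕ) : ℤ) := by
      push_cast
      push_cast at key
      linarith
    exact_mod_cast this
  omega

/-- coverage if a dyadic rational with denominator `2 ^ (a - 1)` lies in the window -/
theorem cov_bad {b m l v I : ℕ} (h1 : 2 ^ l < m) (h2 : m < 2 ^ (l + 1)) (hv : v < 2 ^ (b + 1))
    (hI1 : 2 ^ (l + b) * v ≤ I * (2 ^ (b + 1) * m))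
    (hI2 : I * (2 ^ (b + 1) * m) < 2 ^ (l + b) * (v + 1)) : Cov (b + 1) m v (2 * l + (b + 1)) := by
  have hb0 : 0 < 2 ^ b := by positivity
  have hl0 : 0 < 2 ^ l := by positivity
  have hp1 : 2 ^ (b + 1) = 2 * 2 ^ b := by rw [pow_succ]; ring
  have hp2 : 2 ^ (l + 1) = 2 * 2 ^ l := by rw [pow_succ]; ring
  have e1 : 2 ^ l * v ≤ 2 * I * m := by
    have h3 : 2 ^ b * (2 ^ l * v) ≤ 2 ^ b * (2 * I * m) := by
      calc 2 ^ b * (2 ^ l * v) = 2 ^ (l + b) * v := by rw [pow_add]; ring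
        _ ≤ I * (2 ^ (b + 1) * m) := hI1
        _ = 2 ^ b * (2 * I * m) := by rw [hp1]; ring
    exact Nat.le_of_mul_le_mul_left h3 hb0
  have e2 : 2 * I * m < 2 ^ l * (v + 1) := by
    have h3 : 2 ^ b * (2 * I * m) < 2 ^ b * (2 ^ l * (v + 1)) := by
      calc 2 ^ b * (2 * I * m) = I * (2 ^ (b + 1) * m) := by rw [hp1]; ring
        _ < 2 ^ (l + b) * (v + 1) := hI2
        _ = 2 ^ b * (2 ^ l * (v + 1)) := by rw [pow_add]; ring
    exact Nat.lt_of_mul_lt_mul_left h3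
  have hI : I < 2 ^ b := by
    have h3 : 2 ^ l * (v + 1) ≤ 2 ^ l * (2 * 2 ^ b) := Nat.mul_le_mul_left _ (by omega)
    have h4 : I * m < 2 ^ b * m := by
      have h5 : 2 ^ b * 2 ^ l ≤ 2 ^ b * m := Nat.mul_le_mul_left _ h1.le
      have h6 : 2 ^ l * (2 * 2 ^ b) = 2 * (2 ^ b * 2 ^ l) := by ring
      have h7 : 2 * I * m = 2 * (I * m) := by ring
      omega
    exact Nat.lt_of_mul_lt_mul_right h4
  intro e he
  obtain ⟨y, hy, hye⟩ := exists_res (2 ^ (l + 1) * ((2 ^ b - 1) + 2 ^ b * (2 * I * m))) he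
  have hy2 : y < 2 ^ (l + 1) := by omega
  have hr : 2 ^ (l + 1) * (2 ^ b - 1) + y < 2 ^ (l + 1) * 2 ^ b := by
    have h3 : 2 ^ (l + 1) * (2 ^ b - 1 + 1) ≤ 2 ^ (l + 1) * 2 ^ b :=
      Nat.mul_le_mul_left _ (by omega)
    rw [mul_add, mul_one] at h3
    omega
  refine ⟨_, ?_, hye, ?_⟩
  · have h3 : 2 ^ (l + 1) * ((2 ^ b - 1) + 2 ^ b * (2 * I * m)) + y
        = (2 ^ (l + 1) * 2 ^ b) * (2 * I * m) + (2 ^ (l + 1) * (2 ^ b - 1) + y) := by ring
    have h4 : 2 ^ (2 * l + (b + 1)) = (2 ^ (l + 1) * 2 ^ b) * 2 ^ l := by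
      rw [← pow_add, ← pow_add]; congr 1; ring
    rw [h3, h4, ← Nat.div_div_eq_div_mul, Nat.mul_add_div (by positivity), Nat.div_eq_of_lt hr,
      add_zero]
    exact Nat.div_eq_of_lt_le (by rw [mul_comm v]; exact e1) (by rw [mul_comm (v + 1)]; exact e2)
  · have h3 : (2 ^ (l + 1) * ((2 ^ b - 1) + 2 ^ b * (2 * I * m)) + y) / (2 ^ (b + 1) * m)
        = 2 ^ (l + 1) * I := by
      have h4 : 2 ^ (l + 1) * ((2 ^ b - 1) + 2 ^ b * (2 * I * m)) + y
          = (2 ^ (b + 1) * m) * (2 ^ (l + 1) * I) + (2 ^ (l + 1) * (2 ^ b - 1) + y) := by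
        rw [hp1]; ring
      rw [h4, Nat.mul_add_div (by
        have : 0 < m := by omega
        positivity), Nat.div_eq_of_lt, add_zero]
      calc 2 ^ (l + 1) * (2 ^ b - 1) + y < 2 ^ (l + 1) * 2 ^ b := hr
        _ = 2 ^ (b + 1) * 2 ^ l := by rw [hp1, hp2]; ring
        _ ≤ 2 ^ (b + 1) * m := Nat.mul_le_mul_left _ h1.le
    rw [h3]
    apply dom_of_parts (p := l + 1)
    · rw [Nat.mul_mod_right]
      exact dom_zero _
    · rw [Nat.mul_div_cancel_left _ (by positivity), Nat.mul_add_div (by positivity),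
        Nat.div_eq_of_lt hy2, add_zero]
      exact dom_ones hI _

/-- every vertex `v ≤ 2 ^ a - 3` is reached from all residue classes -/
theorem cov_gap {b m l v : ℕ} (hb : 1 ≤ b) (hodd : m % 2 = 1) (h1 : 2 ^ l < m)
    (h2 : m < 2 ^ (l + 1)) (hv : v + 3 ≤ 2 ^ (b + 1)) :
    ∃ J, J ≤ 2 * l + (b + 1) ∧ Cov (b + 1) m v J := by
  have hb0 : 0 < 2 ^ b := by positivity
  have hp1 : 2 ^ (b + 1) = 2 * 2 ^ b := by rw [pow_succ]; ring
  have hp2 : 2 ^ (l + 1) = 2 * 2 ^ l := by rw [pow_succ]; ring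
  have hm0 : 0 < m := by omega
  set T := 2 ^ (l + b) with hT
  have hT0 : 0 < T := by positivity
  set k := 2 ^ (b + 1) * m with hk
  have hk0 : 0 < k := by positivity
  by_cases hbad : ∃ I, T * v ≤ I * k ∧ I * k < T * (v + 1)
  · obtain ⟨I, hI1, hI2⟩ := hbad
    exact ⟨2 * l + (b + 1), le_refl _, cov_bad h1 h2 (by omega) hI1 hI2⟩
  push Not at hbad
  set Q := T * v / k with hQ
  have hQk : k * Q ≤ T * v := Nat.mul_div_le _ _
  have hQk2 : T * v < k * (Q + 1) := Nat.lt_mul_div_succ _ hk0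
  have hup : T * (v + 1) ≤ (Q + 1) * k := by
    apply hbad
    rw [mul_comm (Q + 1)]; exact hQk2.le
  set B := T / m with hB
  have hmB : m * B ≤ T := Nat.mul_div_le _ _
  have hmB2 : T < m * (B + 1) := Nat.lt_mul_div_succ _ hm0
  by_cases hQB : Q < B
  · refine ⟨l + b, by omega, cov_const (Q := Q) hodd h1 h2 hb hQB ?_⟩
    intro X hX
    have h3 : T * v ≤ X := by rw [← hX]; exact Nat.mul_div_le _ _
    have h4 : X < T * (v + 1) := by rw [← hX]; exact Nat.lt_mul_div_succ _ hT0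
    show X / k = Q
    exact Nat.div_eq_of_lt_le (by rw [mul_comm Q]; omega) (by omega)
  · push Not at hQB
    have hBb : 2 ^ b ≤ 2 * B := by
      have h3 : 2 ^ (b - 1) ≤ B := by
        rw [hB, Nat.le_div_iff_mul_le hm0]
        calc 2 ^ (b - 1) * m ≤ 2 ^ (b - 1) * 2 ^ (l + 1) := Nat.mul_le_mul_left _ h2.le
          _ = T := by rw [hT, ← pow_add]; congr 1; omega
      have h4 : 2 ^ b = 2 * 2 ^ (b - 1) := by
        rw [← pow_succ']; congr 1; omega
      omega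
    obtain ⟨ρ, hρ⟩ : ∃ ρ, T = m * B + ρ := ⟨T - m * B, by omega⟩
    have hρm : ρ < m := by rw [mul_add, mul_one] at hmB2; omega
    -- `v = 2 ^ a - 3`
    have h5 : m * B * (2 * 2 ^ b - v) ≤ ρ * v := by
      have h6 : k * B ≤ T * v := le_trans (Nat.mul_le_mul_left _ hQB) hQk
      obtain ⟨g, hg⟩ : ∃ g, 2 * 2 ^ b = v + g := ⟨2 * 2 ^ b - v, by omega⟩
      rw [hg, Nat.add_sub_cancel_left]
      rw [hk, hp1, hg, hρ] at h6
      nlinarith
    have hv3 : v + 3 = 2 ^ (b + 1) := by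
      by_contra hne
      have h6 : 4 ≤ 2 * 2 ^ b - v := by omega
      have h7 : m * B * 4 ≤ m * B * (2 * 2 ^ b - v) := Nat.mul_le_mul_left _ h6
      have h8 : ρ * v ≤ m * v := Nat.mul_le_mul_right _ hρm.le
      have h9 : m * (4 * B) ≤ m * v := by
        calc m * (4 * B) = m * B * 4 := by ring
          _ ≤ _ := h7
          _ ≤ _ := h5
          _ ≤ _ := h8
      have h10 := Nat.le_of_mul_le_mul_left h9 hm0
      omega
    have h6 : 3 * (m * B) ≤ ρ * v := by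
      rw [show 2 * 2 ^ b - v = 3 by omega] at h5
      linarith
    have h7 : m < 2 * ρ := by
      by_contra hcon
      push Not at hcon
      have h8 : 2 * (ρ * v) ≤ m * v := by
        calc 2 * (ρ * v) = 2 * ρ * v := by ring
          _ ≤ m * v := Nat.mul_le_mul_right _ hcon
      have h9 : m * (6 * B) ≤ m * v := by
        calc m * (6 * B) = 2 * (3 * (m * B)) := by ring
          _ ≤ 2 * (ρ * v) := Nat.mul_le_mul_left _ h6
          _ ≤ _ := h8
      have h10 := Nat.le_of_mul_le_mul_left h9 hm0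
      omega
    have hT2 : 2 ^ (l + (b + 1)) = 2 * T := by
      rw [hT, ← pow_succ']; congr 1
    have hB2 : 2 ^ (l + (b + 1)) / m = 2 * B + 1 := by
      rw [hT2, hρ]
      apply Nat.div_eq_of_lt_le
      · calc (2 * B + 1) * m = 2 * (m * B) + m := by ring
          _ ≤ 2 * (m * B + ρ) := by omega
      · calc 2 * (m * B + ρ) < 2 * (m * B) + 2 * m := by omega
          _ = (2 * B + 1 + 1) * m := by ring
    refine ⟨l + (b + 1), by omega, cov_const (Q := 2 * B) hodd h1 h2 (by omega)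
      (by rw [hB2]; omega) ?_⟩
    intro X hX
    rw [hT2] at hX
    have h8 : 2 * T * v ≤ X := by rw [← hX]; exact Nat.mul_div_le _ _
    have h9 : X < 2 * T * (v + 1) := by rw [← hX]; exact Nat.lt_mul_div_succ _ (by positivity)
    show X / k = 2 * B
    apply Nat.div_eq_of_lt_le
    · have h10 : k * B ≤ T * v := le_trans (Nat.mul_le_mul_left _ hQB) hQk
      calc 2 * B * k = 2 * (k * B) := by ring
        _ ≤ 2 * (T * v) := Nat.mul_le_mul_left _ h10
        _ = 2 * T * v := by ring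
        _ ≤ X := h8
    · refine lt_of_lt_of_le h9 ?_
      obtain ⟨w, hw⟩ : ∃ w, v + 1 = w := ⟨_, rfl⟩
      have hw2 : 2 * 2 ^ b = w + 2 := by omega
      rw [hw, hρ, hk, hp1, hw2]
      have h10 : ρ * w ≤ m * w := Nat.mul_le_mul_right _ hρm.le
      have h11 : w + 2 ≤ 4 * B := by omega
      have h12 : m * (w + 2) ≤ m * (4 * B) := Nat.mul_le_mul_left _ h11
      nlinarith

end Pool.Agent.H36.HZ
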