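import Mathlib
import Pool.Agent.H36.HZ.Walks

/-!
# MP_106b1a_co: a vertex `v < 2 ^ a` from which a position `≡ -1 mod 2 ^ a` is reached
helper36
-/

namespace Pool.Agent.H36.HZ

open Pool.Agent.H53.OM Pool.Agent.H36.HY

/-- the numbers `1 + A + ⋯ + A ^ (r - 1)` -/
def rep (A : ℕ) : ℕ → ℕ
  | 0 => 0
  | r + 1 => 1 + A * rep A r

lemma rep_succ' (A r : ℕ) : rep A (r + 1) = rep A r + A ^ r := by
  induction r with
  | zero => simp [rep]
  | succ r ih =>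
    have h1 : rep A (r + 1 + 1) = 1 + A * rep A (r + 1) := rfl
    have h2 : rep A (r + 1) = 1 + A * rep A r := rfl
    rw [h1]
    conv_lhs => rw [ih]
    rw [h2, pow_succ]
    ring

lemma rep_eq (x r : ℕ) : x * rep (x + 1) r + 1 = (x + 1) ^ r := by
  induction r with
  | zero => simp [rep]
  | succ r ih =>
    rw [rep_succ', pow_succ, ← ih]
    ring

lemma rep_odd {A : ℕ} (hA : A % 2 = 0) (r : ℕ) : rep A (r + 1) % 2 = 1 := by
  obtain ⟨c, hc⟩ : ∃ c, A = 2 * c := ⟨A / 2, by omega⟩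
  have : rep A (r + 1) = 1 + 2 * (c * rep A r) := by
    have h1 : rep A (r + 1) = 1 + A * rep A r := rfl
    have h2 : A * rep A r = 2 * (c * rep A r) := by
      calc A * rep A r = (2 * c) * rep A r := by rw [← hc]
        _ = _ := by ring
    rw [h1, h2]
  omega

lemma decomp {A : ℕ} (hA : 2 ≤ A) : ∀ M : ℕ, M % A = 1 →
    ∃ r w, M = rep A (r + 1) + A ^ (r + 1) * w ∧ w % A ≠ 1 := by
  intro M
  induction M using Nat.strong_induction_on with
  | _ M ih =>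
    intro hM
    have h1 := Nat.div_add_mod M A
    rw [hM] at h1
    by_cases h : M / A % A = 1
    · have hlt : M / A < M := Nat.div_lt_self (by
        rcases Nat.eq_zero_or_pos M with h0 | h0
        · subst h0; simp at hM
        · exact h0) (by omega)
      obtain ⟨r, w, hrw, hw⟩ := ih (M / A) hlt h
      refine ⟨r + 1, w, ?_, hw⟩
      have h2 : rep A (r + 1 + 1) = 1 + A * rep A (r + 1) := rfl
      rw [h2, pow_succ]
      conv_lhs => rw [← h1, hrw]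
      ring
    · refine ⟨0, M / A, ?_, h⟩
      simp only [rep, mul_zero, add_zero, zero_add, pow_one]
      omega

/-- the digits `N` lead from the vertex `v` to a position `≡ -1 mod 2 ^ a` in `a + i` steps -/
def Run (a m v N i : ℕ) : Prop :=
  N < 2 ^ (a + i) ∧ Dom (N % 2 ^ a) v ∧ Dom (N / 2 ^ a) (m * N) ∧
    (m * N / 2 ^ i) % 2 ^ a = 2 ^ a - 1

/-- the same for a vertex `0 < v < 2 ^ b`, `b + 1 = a`, in few steps -/
def Small (b m l : ℕ) : Prop :=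
  ∃ v N i, 0 < v ∧ v < 2 ^ b ∧ i ≤ l + 1 ∧ Run (b + 1) m v N i

/-- the digit `c = -1/M` -/
theorem exists_neg_inv {b M : ℕ} (hM : M % 2 = 1) :
    ∃ c < 2 ^ (b + 1), M * c % 2 ^ (b + 1) = 2 ^ (b + 1) - 1 ∧ c % 2 = 1 ∧
      M * (2 ^ (b + 1) - c) % 2 ^ (b + 1) = 1 % 2 ^ (b + 1) := by
  obtain ⟨A, hA⟩ : ∃ A, 2 ^ (b + 1) = A := ⟨_, rfl⟩
  have hA2 : A = 2 * 2 ^ b := by rw [← hA, pow_succ]; ring
  have hb0 : 0 < 2 ^ b := by positivity
  have hcop : Nat.Coprime M A := by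
    rw [← hA]
    exact Nat.Coprime.pow_right _ (Nat.odd_iff.2 hM).coprime_two_right
  obtain ⟨w, hw, hMw⟩ := Nat.exists_mul_mod_eq_one_of_coprime hcop (by omega)
  obtain ⟨c, hc⟩ : ∃ c, (w * (A - 1)) % A = c := ⟨_, rfl⟩
  have hcA : c < A := by rw [← hc]; exact Nat.mod_lt _ (by omega)
  have hMc : (M * c) % A = A - 1 := by
    rw [← hc, Nat.mul_mod_mod, ← mul_assoc, Nat.mul_mod, hMw, one_mul, Nat.mod_mod]
    exact Nat.mod_eq_of_lt (by omega)
  obtain ⟨t, ht⟩ : ∃ t, M * c = A * t + (A - 1) := ⟨M * c / A, by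
    have := Nat.div_add_mod (M * c) A
    rw [hMc] at this
    exact this.symm⟩
  have hcodd : c % 2 = 1 := by
    by_contra hcon
    obtain ⟨d, hd⟩ : ∃ d, c = 2 * d := ⟨c / 2, by omega⟩
    rw [hd, hA2, show M * (2 * d) = 2 * (M * d) by ring,
      show 2 * 2 ^ b * t = 2 * (2 ^ b * t) by ring] at ht
    omega
  rw [hA]
  refine ⟨c, hcA, hMc, hcodd, ?_⟩
  have h3 : M * c + M * (A - c) = A * M := by
    rw [← mul_add, show c + (A - c) = A by omega, mul_comm]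
  have h4 : A * (t + 1) + M * (A - c) = A * M + 1 := by rw [mul_add, mul_one]; omega
  have h5 : (A * (t + 1) + M * (A - c)) % A = (A * M + 1) % A := by rw [h4]
  rwa [Nat.mul_add_mod, Nat.mul_add_mod] at h5

/-- the run produced by the digit `c = -1/M` -/
theorem run_point {b m R p M c v : ℕ} (hm : m = R + 2 ^ p * M)
    (hR : R * (2 ^ (b + 1) - 1) < 2 ^ p) (hc : c < 2 ^ (b + 1))
    (hMc : M * c % 2 ^ (b + 1) = 2 ^ (b + 1) - 1) (hcv : Dom c v) : Run (b + 1) m v c p := by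
  obtain ⟨A, hA⟩ : ∃ A, 2 ^ (b + 1) = A := ⟨_, rfl⟩
  refine ⟨?_, ?_, ?_, ?_⟩
  · exact lt_of_lt_of_le hc (Nat.pow_le_pow_right (by norm_num) (by omega))
  · rw [Nat.mod_eq_of_lt hc]
    exact hcv
  · rw [Nat.div_eq_of_lt hc]
    exact dom_zero _
  · have h1 : m * c / 2 ^ p = M * c := by
      have h2 : m * c = 2 ^ p * (M * c) + R * c := by rw [hm]; ring
      rw [h2, Nat.mul_add_div (by positivity), Nat.div_eq_of_lt, add_zero]
      calc R * c ≤ R * (2 ^ (b + 1) - 1) := Nat.mul_le_mul_left _ (by omega)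
        _ < 2 ^ p := hR
    rw [h1]
    exact hMc

lemma half_run {b Z : ℕ} (hZ : Z % 2 = 1) :
    ((2 * (2 ^ b - 1) + 2 ^ (b + 1) * Z) / 2) % 2 ^ (b + 1) = 2 ^ (b + 1) - 1 := by
  have hb0 : 0 < 2 ^ b := by positivity
  have hp : 2 ^ (b + 1) = 2 * 2 ^ b := by rw [pow_succ]; ring
  obtain ⟨z, hz⟩ : ∃ z, Z = 2 * z + 1 := ⟨Z / 2, by omega⟩
  have h1 : 2 * (2 ^ b - 1) + 2 ^ (b + 1) * Z = 2 * (2 ^ (b + 1) * z + (2 ^ (b + 1) - 1)) := by
    rw [hz, hp, mul_add, mul_one, show 2 * 2 ^ b * (2 * z) = 2 * (2 * 2 ^ b * z) by ring]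
    omega
  rw [h1, Nat.mul_div_cancel_left _ (by norm_num), Nat.mul_add_mod, Nat.mod_eq_of_lt (by omega)]

/-- case `2`: the distance of the two lowest pieces is not a multiple of `a` -/
theorem hub_shift {b m l M q g : ℕ} (hb : 1 ≤ b) (hq : 1 ≤ q) (hg : 1 ≤ g) (hgb : g ≤ b)
    (hm : m = 1 + 2 ^ ((b + 1) * q + g) * M) (hM1 : M % 2 ^ (b + 1) = 1) (hl : m < 2 ^ (l + 1)) :
    Small b m l := by
  obtain ⟨A, hA⟩ : ∃ A, 2 ^ (b + 1) = A := ⟨_, rfl⟩
  have hA2 : A = 2 * 2 ^ b := by rw [← hA, pow_succ]; ring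
  have hb0 : 2 ≤ 2 ^ b := by
    calc 2 = 2 ^ 1 := rfl
      _ ≤ 2 ^ b := Nat.pow_le_pow_right (by norm_num) hb
  obtain ⟨h, hh⟩ : ∃ h, 2 ^ b - 1 = h := ⟨_, rfl⟩
  have hAq : ∀ q, 2 ^ ((b + 1) * q) = A ^ q := fun q => by rw [pow_mul, hA]
  have hrep : ∀ q, h * rep A q < A ^ q := by
    intro q
    have h1 := rep_eq (A - 1) q
    rw [show A - 1 + 1 = A by omega] at h1
    have h2 : h * rep A q ≤ (A - 1) * rep A q := Nat.mul_le_mul_right _ (by omega)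
    omega
  obtain ⟨G, hG⟩ : ∃ G, 2 ^ g - 1 = G := ⟨_, rfl⟩
  have hg0 : 0 < 2 ^ g := by positivity
  obtain ⟨q', rfl⟩ : ∃ q', q = q' + 1 := ⟨q - 1, by omega⟩
  obtain ⟨N, hN⟩ : ∃ N, h * rep A (q' + 1) + A ^ (q' + 1) * G = N := ⟨_, rfl⟩
  obtain ⟨N', hN'⟩ : ∃ N', h * rep A q' + A ^ q' * G = N' := ⟨_, rfl⟩
  have hNN' : N = h + A * N' := by
    rw [← hN, ← hN', pow_succ]
    have h1 : rep A (q' + 1) = 1 + A * rep A q' := rfl
    rw [h1]; ring
  have hND : N < 2 ^ ((b + 1) * (q' + 1) + g) := by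
    rw [pow_add, hAq, ← hN]
    have h1 := hrep (q' + 1)
    have h2 : A ^ (q' + 1) * (G + 1) = A ^ (q' + 1) * 2 ^ g := by congr 1; omega
    rw [mul_add, mul_one] at h2
    omega
  have hmN : m * N = N + 2 ^ ((b + 1) * (q' + 1) + g) * (M * N) := by
    rw [hm]; ring
  have hMpos : 0 < M := by
    rcases Nat.eq_zero_or_pos M with h0 | h0
    · subst h0; simp at hM1
    · exact h0
  have hDl : (b + 1) * (q' + 1) + g ≤ l := by
    have h1 : 2 ^ ((b + 1) * (q' + 1) + g) * 1 ≤ 2 ^ ((b + 1) * (q' + 1) + g) * M :=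
      Nat.mul_le_mul_left _ hMpos
    have h2 : 2 ^ ((b + 1) * (q' + 1) + g) < 2 ^ (l + 1) := by omega
    have := (Nat.pow_lt_pow_iff_right (by norm_num : 1 < 2)).1 h2
    omega
  refine ⟨h, N, (b + 1) * (q' + 1), by omega, by omega, by omega, ?_, ?_, ?_, ?_⟩
  · refine lt_of_lt_of_le hND (Nat.pow_le_pow_right (by norm_num) (by omega))
  · rw [hA, hNN', Nat.add_mul_mod_self_left, Nat.mod_eq_of_lt (by omega)]
    exact dom_refl _
  · have h1 : N / A = N' := by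
      rw [hNN', Nat.add_mul_div_left _ _ (by omega), Nat.div_eq_of_lt (by omega), zero_add]
    rw [hA, h1]
    refine dom_trans (y := N) ?_ ?_
    · have h2 : N = h * rep A q' + 2 ^ ((b + 1) * q') * (h + A * G) := by
        rw [hAq, ← hN, rep_succ', pow_succ]; ring
      rw [h2, ← hN', ← hAq]
      refine dom_add_high (by rw [hAq]; exact hrep q') ?_
      have h3 : h + A * G = (2 ^ b - 1) + 2 ^ b * (2 * G) := by rw [hh, hA2]; ring
      rw [h3]
      apply dom_ones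
      have h4 : 2 ^ g ≤ 2 ^ b := Nat.pow_le_pow_right (by norm_num) hgb
      omega
    · rw [hmN]
      exact dom_low hND _
  · rw [hA]
    have h1 : m * N / 2 ^ ((b + 1) * (q' + 1)) = G + 2 ^ g * (M * N) := by
      have h2 : m * N = 2 ^ ((b + 1) * (q' + 1)) * (G + 2 ^ g * (M * N)) + h * rep A (q' + 1) := by
        rw [hmN, pow_add, hAq]
        conv_lhs => rw [← hN]
        conv_rhs => rw [← hN]
        ring
      rw [h2, Nat.mul_add_div (by positivity), hAq, Nat.div_eq_of_lt (hrep _), add_zero]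
    rw [h1]
    obtain ⟨M', hM'⟩ : ∃ M', M = A * M' + 1 := ⟨M / A, by
      have := Nat.div_add_mod M A
      rw [← hA, hM1, hA] at this
      exact this.symm⟩
    obtain ⟨f, hf⟩ : ∃ f, b + 1 = g + (f + 1) := ⟨b - g, by omega⟩
    obtain ⟨g', rfl⟩ : ∃ g', g = g' + 1 := ⟨g - 1, by omega⟩
    have hAgf : A = 2 ^ (g' + 1) * 2 ^ (f + 1) := by rw [← hA, hf, pow_add]
    have hbgf : 2 ^ b = 2 ^ g' * 2 ^ (f + 1) := by rw [← pow_add]; congr 1; omega
    obtain ⟨Z, hZ⟩ : ∃ Z, M' * N + N' = Z := ⟨_, rfl⟩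
    have h3 : M * N = h + A * Z := by
      rw [hM', ← hZ]
      calc (A * M' + 1) * N = A * (M' * N) + N := by ring
        _ = A * (M' * N) + (h + A * N') := by rw [← hNN']
        _ = _ := by ring
    have h4 : M * N + 1 = 2 ^ (f + 1) * (2 ^ g' + 2 ^ (g' + 1) * Z) := by
      have h5 : M * N + 1 = 2 ^ b + A * Z := by omega
      rw [h5, hbgf, hAgf]; ring
    have h5 : G + 2 ^ (g' + 1) * (M * N) + 1 = 2 ^ (g' + 1) * (M * N + 1) := by
      rw [mul_add, mul_one]; omega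
    have hW : 0 < 2 ^ g' + 2 ^ (g' + 1) * Z := by positivity
    obtain ⟨W, hWW⟩ : ∃ W, 2 ^ g' + 2 ^ (g' + 1) * Z = W + 1 := ⟨_, (Nat.sub_add_cancel hW).symm⟩
    have h7 : 2 ^ (g' + 1) * (2 ^ (f + 1) * (W + 1)) = A * W + A := by
      rw [← mul_assoc, ← hAgf, mul_add, mul_one]
    rw [h4, hWW, h7] at h5
    have h6 : G + 2 ^ (g' + 1) * (M * N) = A * W + (A - 1) := by omega
    rw [h6, Nat.mul_add_mod, Nat.mod_eq_of_lt (by omega)]

/-- case `3` -/
theorem hub_even {b m l w q : ℕ} (hb : 1 ≤ b) (hq : 1 ≤ q)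
    (hm : m = 1 + 2 ^ ((b + 1) * q) * (1 + 2 ^ (b + 1) * w)) (hw : w % 2 = 0)
    (hl : m < 2 ^ (l + 1)) :
    Small b m l := by
  obtain ⟨A, hA⟩ : ∃ A, 2 ^ (b + 1) = A := ⟨_, rfl⟩
  have hA2 : A = 2 * 2 ^ b := by rw [← hA, pow_succ]; ring
  have hb0 : 2 ≤ 2 ^ b := by
    calc 2 = 2 ^ 1 := rfl
      _ ≤ 2 ^ b := Nat.pow_le_pow_right (by norm_num) hb
  obtain ⟨h, hh⟩ : ∃ h, 2 ^ b - 1 = h := ⟨_, rfl⟩
  have hhodd : h % 2 = 1 := by
    obtain ⟨c, rfl⟩ : ∃ c, b = c + 1 := ⟨b - 1, by omega⟩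
    have : 2 ^ (c + 1) = 2 * 2 ^ c := by rw [pow_succ]; ring
    omega
  have hAq : ∀ q, 2 ^ ((b + 1) * q) = A ^ q := fun q => by rw [pow_mul, hA]
  have hrep : ∀ q, h * rep A q < A ^ q := by
    intro q
    have h1 := rep_eq (A - 1) q
    rw [show A - 1 + 1 = A by omega] at h1
    have h2 : h * rep A q ≤ (A - 1) * rep A q := Nat.mul_le_mul_right _ (by omega)
    omega
  obtain ⟨P, hP⟩ : ∃ P, h * rep A q = P := ⟨_, rfl⟩
  obtain ⟨N, hN⟩ : ∃ N, h * rep A (q + 1) = N := ⟨_, rfl⟩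
  have hNP : N = h + A * P := by
    rw [← hN, ← hP]
    have h1 : rep A (q + 1) = 1 + A * rep A q := rfl
    rw [h1]; ring
  have hNP2 : N = P + A ^ q * h := by
    rw [← hN, ← hP, rep_succ']; ring
  have hPlt : P < A ^ q := by rw [← hP]; exact hrep q
  rw [hA] at hm
  have hmN : m * N = P + 2 ^ ((b + 1) * q) * (2 * h + A * (P + w * N)) := by
    rw [hm, hAq]
    calc (1 + A ^ q * (1 + A * w)) * N = N + A ^ q * (N + A * (w * N)) := by ring
      _ = (P + A ^ q * h) + A ^ q * ((h + A * P) + A * (w * N)) := by rw [← hNP2, ← hNP]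
      _ = _ := by ring
  have hDl : (b + 1) * q ≤ l := by
    have h1 : 2 ^ ((b + 1) * q) * 1 ≤ 2 ^ ((b + 1) * q) * (1 + A * w) :=
      Nat.mul_le_mul_left _ (by omega)
    have h2 : 2 ^ ((b + 1) * q) < 2 ^ (l + 1) := by omega
    have := (Nat.pow_lt_pow_iff_right (by norm_num : 1 < 2)).1 h2
    omega
  refine ⟨h, N, (b + 1) * q + 1, by omega, by omega, by omega, ?_, ?_, ?_, ?_⟩
  · have h1 : N < 2 ^ ((b + 1) * (q + 1)) := by rw [hAq, ← hN]; exact hrep _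
    refine lt_of_lt_of_le h1 (Nat.pow_le_pow_right (by norm_num) ?_)
    rw [mul_add, mul_one]; omega
  · rw [hA, hNP, Nat.add_mul_mod_self_left, Nat.mod_eq_of_lt (by omega)]
    exact dom_refl _
  · have h1 : N / A = P := by
      rw [hNP, Nat.add_mul_div_left _ _ (by omega), Nat.div_eq_of_lt (by omega), zero_add]
    rw [hA, h1, hmN]
    exact dom_low (by rw [hAq]; exact hPlt) _
  · have h1 : m * N / 2 ^ ((b + 1) * q + 1) = (2 * (2 ^ b - 1) + 2 ^ (b + 1) * (P + w * N)) / 2 := by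
      rw [pow_succ, ← Nat.div_div_eq_div_mul, hmN, Nat.add_mul_div_left _ _ (by positivity), hAq,
        Nat.div_eq_of_lt hPlt, zero_add, hh, hA]
    rw [h1]
    apply half_run
    have h2 : P % 2 = 1 := by
      obtain ⟨q', rfl⟩ : ∃ q', q = q' + 1 := ⟨q - 1, by omega⟩
      rw [← hP, Nat.mul_mod, hhodd, rep_odd (by omega) q']
    have h3 : (w * N) % 2 = 0 := by rw [Nat.mul_mod, hw]; simp
    omega

/-- case `4a` -/
theorem hub_two {b m l w q s : ℕ} (hb : 1 ≤ b) (hq : 1 ≤ q)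
    (hm : m = 1 + 2 ^ ((b + 1) * q) *
      (rep (2 ^ (b + 1)) (s + 2) + (2 ^ (b + 1)) ^ (s + 2) * w)) (hw : w % 2 = 0)
    (hl : m < 2 ^ (l + 1)) :
    Small b m l := by
  obtain ⟨A, hA⟩ : ∃ A, 2 ^ (b + 1) = A := ⟨_, rfl⟩
  have hA2 : A = 2 * 2 ^ b := by rw [← hA, pow_succ]; ring
  have hb0 : 2 ≤ 2 ^ b := by
    calc 2 = 2 ^ 1 := rfl
      _ ≤ 2 ^ b := Nat.pow_le_pow_right (by norm_num) hb
  obtain ⟨h, hh⟩ : ∃ h, 2 ^ b - 1 = h := ⟨_, rfl⟩
  have hhodd : h % 2 = 1 := by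
    obtain ⟨c, rfl⟩ : ∃ c, b = c + 1 := ⟨b - 1, by omega⟩
    have : 2 ^ (c + 1) = 2 * 2 ^ c := by rw [pow_succ]; ring
    omega
  have hAh : A = 2 * h + 2 := by omega
  have hAq : ∀ q, 2 ^ ((b + 1) * q) = A ^ q := fun q => by rw [pow_mul, hA]
  rw [hA] at hm
  obtain ⟨ρ, hρ⟩ : ∃ ρ, rep A (s + 1) = ρ + 1 := ⟨A * rep A s, by
    have h1 : rep A (s + 1) = 1 + A * rep A s := rfl
    rw [h1, add_comm]⟩
  have hrepA : (2 * h + 1) * (ρ + 1) + 1 = A ^ (s + 1) := by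
    have h1 := rep_eq (A - 1) (s + 1)
    rw [show A - 1 + 1 = A by omega, show A - 1 = 2 * h + 1 by omega, hρ] at h1
    exact h1
  have hrep2 : rep A (s + 2) = ρ + 1 + A ^ (s + 1) := by
    rw [rep_succ', hρ]
  have hrep3 : A * rep A (s + 2) + 1 = ρ + 1 + A ^ (s + 1) + A ^ (s + 2) := by
    have h1 : rep A (s + 2 + 1) = 1 + A * rep A (s + 2) := rfl
    have h2 := rep_succ' A (s + 2)
    rw [h1, hrep2] at h2
    rw [hrep2]
    omega
  obtain ⟨N, hN⟩ : ∃ N, h + A * h = N := ⟨_, rfl⟩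
  obtain ⟨Lw, hLw⟩ : ∃ Lw, h * (2 * ρ + 1) = Lw := ⟨_, rfl⟩
  have hMN : (rep A (s + 2) + A ^ (s + 2) * w) * N = Lw + A ^ (s + 1) * (2 * h + A * (h + w * N)) := by
    have h1 : rep A (s + 2) * N = h * (rep A (s + 2) + A * rep A (s + 2)) := by rw [← hN]; ring
    have h2 : rep A (s + 2) + A * rep A (s + 2) = (2 * ρ + 1) + 2 * A ^ (s + 1) + A ^ (s + 2) := by
      rw [hrep2] at hrep3 ⊢
      omega
    rw [add_mul, h1, h2, ← hLw, pow_succ A (s + 1)]
    ring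
  have hlow : N + A ^ q * Lw < A ^ q * A ^ (s + 1) := by
    have h1 : A ≤ A ^ q := by
      calc A = A ^ 1 := (pow_one A).symm
        _ ≤ A ^ q := Nat.pow_le_pow_right (by omega) hq
    have h2 : N < A * (1 + h) := by rw [← hN, mul_add, mul_one]; omega
    have h3 : A * (1 + h) ≤ A ^ q * (1 + h) := Nat.mul_le_mul_right _ h1
    have h4 : (1 + h) + Lw ≤ A ^ (s + 1) := by
      rw [← hrepA, ← hLw]
      nlinarith
    have h5 : A ^ q * ((1 + h) + Lw) ≤ A ^ q * A ^ (s + 1) := Nat.mul_le_mul_left _ h4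
    rw [mul_add] at h5
    omega
  have hmN : m * N = (N + A ^ q * Lw) + 2 ^ ((b + 1) * q + (b + 1) * (s + 1)) *
      (2 * h + A * (h + w * N)) := by
    rw [hm, pow_add 2 ((b + 1) * q), hAq, hAq]
    calc (1 + A ^ q * (rep A (s + 2) + A ^ (s + 2) * w)) * N
        = N + A ^ q * ((rep A (s + 2) + A ^ (s + 2) * w) * N) := by ring
      _ = _ := by rw [hMN]; ring
  have hpow : 2 ^ ((b + 1) * q + (b + 1) * (s + 1)) = A ^ q * A ^ (s + 1) := by
    rw [pow_add, hAq, hAq]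
  have hDl : (b + 1) * q + (b + 1) * (s + 1) ≤ l := by
    have h1 : A ^ q * A ^ (s + 1) ≤ A ^ q * (rep A (s + 2) + A ^ (s + 2) * w) :=
      Nat.mul_le_mul_left _ (by rw [hrep2]; omega)
    have h2 : 2 ^ ((b + 1) * q + (b + 1) * (s + 1)) < 2 ^ (l + 1) := by
      rw [hAq] at hm
      rw [hpow]; omega
    have := (Nat.pow_lt_pow_iff_right (by norm_num : 1 < 2)).1 h2
    omega
  have hNA : N < A * A := by
    rw [← hN]
    have : A * h + A ≤ A * A := by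
      rw [← mul_add_one]
      exact Nat.mul_le_mul_left _ (by omega)
    omega
  refine ⟨h, N, (b + 1) * q + (b + 1) * (s + 1) + 1, by omega, by omega, by omega, ?_, ?_, ?_, ?_⟩
  · calc N < A * A := hNA
      _ = 2 ^ ((b + 1) + (b + 1)) := by rw [pow_add, hA]
      _ ≤ _ := Nat.pow_le_pow_right (by norm_num) (by
          have : (b + 1) * 1 ≤ (b + 1) * (s + 1) := Nat.mul_le_mul_left _ (by omega)
          omega)
  · rw [hA, ← hN, Nat.add_mul_mod_self_left, Nat.mod_eq_of_lt (by omega)]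
    exact dom_refl _
  · have h1 : N / A = h := by
      rw [← hN, Nat.add_mul_div_left _ _ (by omega), Nat.div_eq_of_lt (by omega), zero_add]
    rw [hA, h1]
    obtain ⟨q', rfl⟩ : ∃ q', q = q' + 1 := ⟨q - 1, by omega⟩
    have h2 : m * N = h + 2 ^ (b + 1) *
        (h + A ^ q' * ((rep A (s + 2) + A ^ (s + 2) * w) * N)) := by
      rw [hm, hAq, hA, pow_succ]
      calc (1 + A ^ q' * A * (rep A (s + 2) + A ^ (s + 2) * w)) * N
          = N + A * (A ^ q' * ((rep A (s + 2) + A ^ (s + 2) * w) * N)) := by ring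
        _ = (h + A * h) + A * (A ^ q' * ((rep A (s + 2) + A ^ (s + 2) * w) * N)) := by rw [← hN]
        _ = _ := by ring
    rw [h2]
    exact dom_low (by rw [hA]; omega) _
  · have h1 : m * N / 2 ^ ((b + 1) * q + (b + 1) * (s + 1) + 1)
        = (2 * (2 ^ b - 1) + 2 ^ (b + 1) * (h + w * N)) / 2 := by
      rw [pow_succ, ← Nat.div_div_eq_div_mul, hmN, Nat.add_mul_div_left _ _ (by positivity), hpow,
        Nat.div_eq_of_lt hlow, zero_add, hh, hA]
    rw [h1]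
    apply half_run
    have h3 : (w * N) % 2 = 0 := by rw [Nat.mul_mod, hw]; simp
    omega

/-- the position of the first digit `≠ 1` of `m` -/
theorem hub_cases {b m l : ℕ} (hb : 1 ≤ b) (hodd : m % 2 = 1) (h3 : 3 ≤ m)
    (hl : m < 2 ^ (l + 1)) :
    Small b m l ∨ ∃ R p M, (p = 0 ∨ m % 2 ^ (b + 1) = 1) ∧ m = R + 2 ^ p * M ∧
      R * (2 ^ (b + 1) - 1) < 2 ^ p ∧ M % 2 = 1 ∧ M % 2 ^ (b + 1) ≠ 1 := by
  have hb0 : 2 ≤ 2 ^ b := by
    calc 2 = 2 ^ 1 := rfl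
      _ ≤ 2 ^ b := Nat.pow_le_pow_right (by norm_num) hb
  have hA2 : 2 ^ (b + 1) = 2 * 2 ^ b := by rw [pow_succ]; ring
  by_cases hm1 : m % 2 ^ (b + 1) = 1
  swap
  · exact Or.inr ⟨0, 0, m, Or.inl rfl, by simp, by simp, hodd, hm1⟩
  obtain ⟨D, M, hMo, hD⟩ := Nat.exists_eq_two_pow_mul_odd (n := m - 1) (by omega)
  have hM2 : M % 2 = 1 := Nat.odd_iff.1 hMo
  have hmD : m = 1 + 2 ^ D * M := by omega
  have hDa : b + 1 ≤ D := by
    have h4 : 2 ^ (b + 1) ∣ m - 1 := by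
      have := Nat.div_add_mod m (2 ^ (b + 1))
      exact ⟨m / 2 ^ (b + 1), by omega⟩
    rw [hD] at h4
    have h5 : 2 ^ (b + 1) ∣ 2 ^ D := by
      refine Nat.Coprime.dvd_of_dvd_mul_right ?_ h4
      exact Nat.Coprime.pow_left _ (Nat.coprime_two_left.2 hMo)
    exact (Nat.pow_dvd_pow_iff_le_right (by norm_num : 1 < 2)).1 h5
  have hAD : 2 ^ (b + 1) ≤ 2 ^ D := Nat.pow_le_pow_right (by norm_num) hDa
  by_cases hM1 : M % 2 ^ (b + 1) = 1
  swap
  · exact Or.inr ⟨1, D, M, Or.inr hm1, hmD, by omega, hM2, hM1⟩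
  have hdm := Nat.div_add_mod D (b + 1)
  have hgb := Nat.mod_lt D (show 0 < b + 1 by omega)
  have hq : 1 ≤ D / (b + 1) := Nat.div_pos hDa (by omega)
  obtain ⟨q, hq'⟩ : ∃ q, D / (b + 1) = q := ⟨_, rfl⟩
  obtain ⟨g, hg'⟩ : ∃ g, D % (b + 1) = g := ⟨_, rfl⟩
  rw [hq', hg'] at hdm
  rw [hg'] at hgb
  rw [hq'] at hq
  by_cases hg0 : g = 0
  swap
  · exact Or.inl (hub_shift (q := q) (g := g) (M := M) hb hq (by omega) (by omega)
      (by rw [hdm]; exact hmD) hM1 hl)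
  rw [hg0, add_zero] at hdm
  obtain ⟨r, w, hMw, hw1⟩ := decomp (A := 2 ^ (b + 1)) (by omega) M hM1
  rcases Nat.mod_two_eq_zero_or_one w with hw | hw
  · cases r with
    | zero =>
      refine Or.inl (hub_even (q := q) (w := w) hb hq ?_ hw hl)
      rw [hdm]
      simp only [rep, mul_zero, add_zero, zero_add, pow_one] at hMw
      rw [← hMw]
      exact hmD
    | succ s =>
      refine Or.inl (hub_two (q := q) (w := w) (s := s) hb hq ?_ hw hl)
      rw [hdm, ← hMw]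
      exact hmD
  · refine Or.inr ⟨1 + 2 ^ D * rep (2 ^ (b + 1)) (r + 1), D + (b + 1) * (r + 1), w, Or.inr hm1,
      ?_, ?_, hw, hw1⟩
    · rw [hmD, hMw, pow_add 2 D, pow_mul 2 (b + 1)]; ring
    · have h4 := rep_eq (2 ^ (b + 1) - 1) (r + 1)
      rw [show 2 ^ (b + 1) - 1 + 1 = 2 ^ (b + 1) by omega] at h4
      rw [pow_add 2 D, pow_mul 2 (b + 1), ← h4]
      have h5 : (1 + 2 ^ D * rep (2 ^ (b + 1)) (r + 1)) * (2 ^ (b + 1) - 1)
          = (2 ^ (b + 1) - 1) + 2 ^ D * ((2 ^ (b + 1) - 1) * rep (2 ^ (b + 1)) (r + 1)) := by ring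
      rw [h5, mul_add, mul_one]
      omega

end Pool.Agent.H36.HZ
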