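import Mathlib
import Pool.Agent.H36.HZ.Cov
import Pool.Agent.H36.HZ.Hub

/-!
# MP_106b1a_co: two zero digits of `-1/m` give closed walks of all lengths `≥ 2 ⌊log₂ k⌋ + 3`
helper36
-/

namespace Pool.Agent.H36.HZ

open Pool.Agent.H53.OM Pool.Agent.H36.HY

/-- coverage of `v = 2 ^ a - G` at a level where the window lies between two multiples of `k` -/
theorem cov_level {a m l s v G : ℕ} (hodd : m % 2 = 1) (h1 : 2 ^ l < m) (h2 : m < 2 ^ (l + 1))
    (hv : v + G = 2 ^ a)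
    (hP : 2 ^ (l + s) * G ≤ 2 ^ a * (2 ^ (l + s) % m))
    (hg : 2 ^ a * (2 ^ (l + (s + 1)) % m) ≤ 2 ^ (l + (s + 1)) * (G - 1)) (hG : 1 ≤ G) :
    Cov a m v (l + (s + 1)) := by
  obtain ⟨A, hA⟩ : ∃ A, 2 ^ a = A := ⟨_, rfl⟩
  have hA0 : 0 < A := by rw [← hA]; positivity
  have hm0 : 0 < m := by omega
  obtain ⟨T, hT⟩ : ∃ T, 2 ^ (l + s) = T := ⟨_, rfl⟩
  have hT2 : 2 ^ (l + (s + 1)) = 2 * T := by rw [← hT, ← pow_succ']; congr 1
  have hT0 : 0 < T := by rw [← hT]; positivity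
  rw [hA] at hv
  rw [hA, hT] at hP
  rw [hA, hT2] at hg
  have e1 := Nat.div_add_mod T m
  have e2 := Nat.div_add_mod (2 * T) m
  have e3 := Nat.mod_lt T hm0
  have e4 := Nat.mod_lt (2 * T) hm0
  obtain ⟨B, hB⟩ : ∃ B, T / m = B := ⟨_, rfl⟩
  obtain ⟨r, hr⟩ : ∃ r, T % m = r := ⟨_, rfl⟩
  obtain ⟨B', hB'⟩ : ∃ B', 2 * T / m = B' := ⟨_, rfl⟩
  obtain ⟨r', hr'⟩ : ∃ r', 2 * T % m = r' := ⟨_, rfl⟩
  rw [hB, hr] at e1
  rw [hB', hr'] at e2
  rw [hr] at hP e3
  rw [hr'] at hg e4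
  have hBB : B' ≤ 2 * B + 1 := by
    by_contra hcon
    have h3 : m * (2 * B + 2) ≤ m * B' := Nat.mul_le_mul_left _ (by omega)
    have h4 : m * (2 * B + 2) = 2 * (m * B) + 2 * m := by ring
    omega
  have hG2 : G - 1 + (v + 1) = A := by omega
  -- `B' k ≥ 2 T (v + 1)`
  have f1 : 2 * T * (v + 1) ≤ B' * (A * m) := by
    have h3 : 2 * T * (v + 1) + 2 * T * (G - 1) = A * (m * B' + r') := by
      rw [← mul_add, e2, show v + 1 + (G - 1) = A by omega, mul_comm]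
    have h4 : A * (m * B' + r') = B' * (A * m) + A * r' := by ring
    omega
  have hB'0 : 0 < B' := by
    rcases Nat.eq_zero_or_pos B' with h | h
    · rw [h, zero_mul] at f1
      have : 0 < 2 * T * (v + 1) := by positivity
      omega
    · exact h
  have f2 : B * (A * m) ≤ T * v := by
    have h3 : T * v + T * G = A * (m * B + r) := by
      rw [← mul_add, e1, hv, mul_comm]
    have h4 : A * (m * B + r) = B * (A * m) + A * r := by ring
    omega
  refine cov_const (Q := B' - 1) hodd h1 h2 (by omega) (by rw [hT2, hB']; omega) ?_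
  intro X hX
  rw [hT2] at hX
  have h8 : 2 * T * v ≤ X := by rw [← hX]; exact Nat.mul_div_le _ _
  have h9 : X < 2 * T * (v + 1) := by rw [← hX]; exact Nat.lt_mul_div_succ _ (by positivity)
  rw [hA]
  apply Nat.div_eq_of_lt_le
  · have h3 : (B' - 1) * (A * m) ≤ 2 * B * (A * m) := Nat.mul_le_mul_right _ (by omega)
    have h4 : 2 * B * (A * m) = 2 * (B * (A * m)) := by ring
    have h5 : 2 * T * v = 2 * (T * v) := by ring
    omega
  · rw [show B' - 1 + 1 = B' by omega]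
    omega

/-- one of the two vertices with one and with two zero digits is covered early -/
theorem select {a m l p q M i1 i2 : ℕ} (hodd : m % 2 = 1) (h1 : 2 ^ l < m) (h2 : m < 2 ^ (l + 1))
    (hi : i1 < i2) (hi1 : 1 ≤ i1) (hi2 : i2 < a) (hl : l = p + q) (hpM : 2 ^ p * M ≤ m)
    (hbig : 2 ^ a < M * 2 ^ (i2 + 1)) :
    ∃ x J, (x = 2 ^ i2 ∨ x = 2 ^ i2 + 2 ^ i1) ∧ J + p ≤ 2 * l + 3 ∧
      Cov a m (2 ^ a - (x + 1)) J := by
  classical
  have hm0 : 0 < m := by omega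
  have g1 : 2 ^ (i1 + 1) ≤ 2 ^ i2 := Nat.pow_le_pow_right (by norm_num) hi
  have g2 : 2 ^ (i2 + 1) ≤ 2 ^ a := Nat.pow_le_pow_right (by norm_num) hi2
  have g3 : 2 ^ 1 ≤ 2 ^ i1 := Nat.pow_le_pow_right (by norm_num) hi1
  rw [pow_succ] at g1 g2 hbig
  obtain ⟨A, hA⟩ : ∃ A, 2 ^ a = A := ⟨_, rfl⟩
  obtain ⟨u, hu⟩ : ∃ u, 2 ^ i1 = u := ⟨_, rfl⟩
  obtain ⟨w, hw⟩ : ∃ w, 2 ^ i2 = w := ⟨_, rfl⟩
  rw [hu, hw] at g1
  rw [hw, hA] at g2 hbig
  rw [hu] at g3
  rw [hu, hw, hA]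
  -- `P G s` : the quotient at the start of the window is smaller than `B`
  let P : ℕ → ℕ → Prop := fun G s => A * (2 ^ (l + s) % m) < 2 ^ (l + s) * G
  have hP0 : ∀ G, G ≤ A → ¬ P G 0 := by
    intro G hG h
    simp only [P, add_zero] at h
    rw [Nat.mod_eq_of_lt h1, mul_comm] at h
    have := Nat.lt_of_mul_lt_mul_left h
    omega
  have hP3 : P (w + 1) (q + 3) := by
    simp only [P]
    have h3 := Nat.mod_lt (2 ^ (l + (q + 3))) hm0
    have h4 : A * (2 ^ (l + (q + 3)) % m) ≤ A * m := Nat.mul_le_mul_left _ h3.le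
    have hp0 : 0 < 2 ^ p := by positivity
    have h5 : 2 ^ p * (A * m) ≤ 2 ^ p * (2 ^ (l + (q + 3)) * w) := by
      have h6 : m * m ≤ 2 ^ (l + 1) * 2 ^ (l + 1) := Nat.mul_le_mul h2.le h2.le
      have h7 : 2 ^ p * 2 ^ (l + (q + 3)) = 2 * (2 ^ (l + 1) * 2 ^ (l + 1)) := by
        rw [← pow_add, ← pow_add, ← pow_succ']; congr 1; omega
      calc 2 ^ p * (A * m) ≤ 2 ^ p * (M * (w * 2) * m) :=
            Nat.mul_le_mul_left _ (Nat.mul_le_mul_right _ hbig.le)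
        _ = 2 * w * ((2 ^ p * M) * m) := by ring
        _ ≤ 2 * w * (m * m) := Nat.mul_le_mul_left _ (Nat.mul_le_mul_right _ hpM)
        _ ≤ 2 * w * (2 ^ (l + 1) * 2 ^ (l + 1)) := Nat.mul_le_mul_left _ h6
        _ = (2 * (2 ^ (l + 1) * 2 ^ (l + 1))) * w := by ring
        _ = (2 ^ p * 2 ^ (l + (q + 3))) * w := by rw [h7]
        _ = _ := by ring
    have h8 := Nat.le_of_mul_le_mul_left h5 hp0
    have h11 : 0 < 2 ^ (l + (q + 3)) := by positivity
    rw [mul_add, mul_one]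
    omega
  have hmono : ∀ G G' s, G ≤ G' → P G s → P G' s := by
    intro G G' s hG h
    exact lt_of_lt_of_le h (Nat.mul_le_mul_left _ hG)
  have hex1 : ∃ s, P (w + 1) s := ⟨_, hP3⟩
  obtain ⟨s1, hs1⟩ : ∃ s, Nat.find hex1 = s := ⟨_, rfl⟩
  have hs1P : P (w + 1) s1 := by rw [← hs1]; exact Nat.find_spec hex1
  have hs1min : ∀ t, t < s1 → ¬ P (w + 1) t := by
    intro t ht; rw [← hs1] at ht; exact Nat.find_min hex1 ht
  have hs1le : s1 ≤ q + 3 := by rw [← hs1]; exact Nat.find_min' hex1 hP3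
  have hex2 : ∃ s, P (w + u + 1) s := ⟨s1, hmono _ _ _ (by omega) hs1P⟩
  obtain ⟨s2, hs2⟩ : ∃ s, Nat.find hex2 = s := ⟨_, rfl⟩
  have hs2P : P (w + u + 1) s2 := by rw [← hs2]; exact Nat.find_spec hex2
  have hs2min : ∀ t, t < s2 → ¬ P (w + u + 1) t := by
    intro t ht; rw [← hs2] at ht; exact Nat.find_min hex2 ht
  have hs21 : s2 ≤ s1 := by
    rw [← hs2]; exact Nat.find_min' hex2 (hmono _ _ _ (by omega) hs1P)
  have hs10 : s1 ≠ 0 := by
    intro h
    rw [h] at hs1P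
    exact hP0 (w + 1) (by omega) hs1P
  have hs20 : s2 ≠ 0 := by
    intro h
    rw [h] at hs2P
    exact hP0 (w + u + 1) (by omega) hs2P
  obtain ⟨t1, rfl⟩ : ∃ t, s1 = t + 1 := ⟨s1 - 1, by omega⟩
  obtain ⟨t2, rfl⟩ : ∃ t, s2 = t + 1 := ⟨s2 - 1, by omega⟩
  by_cases c1 : A * (2 ^ (l + (t1 + 1)) % m) ≤ 2 ^ (l + (t1 + 1)) * w
  · refine ⟨w, l + (t1 + 1), Or.inl rfl, by omega, ?_⟩
    have h3 := hs1min t1 (by omega)
    simp only [P, not_lt] at h3
    rw [← hA] at h3 c1 ⊢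
    exact cov_level (G := w + 1) hodd h1 h2 (by rw [hA]; omega) h3
      (by rw [Nat.add_sub_cancel]; exact c1) (by omega)
  by_cases c2 : A * (2 ^ (l + (t2 + 1)) % m) ≤ 2 ^ (l + (t2 + 1)) * (w + u)
  · refine ⟨w + u, l + (t2 + 1), Or.inr rfl, by omega, ?_⟩
    have h3 := hs2min t2 (by omega)
    simp only [P, not_lt] at h3
    rw [← hA] at h3 c2 ⊢
    exact cov_level (G := w + u + 1) hodd h1 h2 (by rw [hA]; omega) h3
      (by rw [Nat.add_sub_cancel]; exact c2) (by omega)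
  exfalso
  push Not at c1 c2
  simp only [P] at hs1P hs2P
  rcases Nat.lt_or_ge t2 t1 with hlt | hge
  · -- the smaller level belongs to the larger gap
    obtain ⟨d, hd⟩ : ∃ d, t1 + 1 = t2 + 1 + (d + 1) := ⟨t1 - t2 - 1, by omega⟩
    obtain ⟨r1, hr1⟩ : ∃ r, 2 ^ (l + (t1 + 1)) % m = r := ⟨_, rfl⟩
    obtain ⟨r2, hr2⟩ : ∃ r, 2 ^ (l + (t2 + 1)) % m = r := ⟨_, rfl⟩
    have hpow : 2 ^ (l + (t1 + 1)) = 2 ^ (l + (t2 + 1)) * 2 ^ (d + 1) := by
      rw [← pow_add]; congr 1; omega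
    have hr12 : r1 = (r2 * 2 ^ (d + 1)) % m := by
      rw [← hr1, ← hr2, hpow, Nat.mod_mul_mod]
    have hge2 : m ≤ r2 * 2 ^ (d + 1) := by
      by_contra hcon
      push Not at hcon
      rw [Nat.mod_eq_of_lt hcon] at hr12
      apply hs1min (t2 + 1) (by omega)
      simp only [P]
      rw [hr2]
      rw [hr1, hpow, hr12] at hs1P
      have h3 : (A * r2) * 2 ^ (d + 1) < (2 ^ (l + (t2 + 1)) * (w + 1)) * 2 ^ (d + 1) := by
        calc (A * r2) * 2 ^ (d + 1) = A * (r2 * 2 ^ (d + 1)) := by ring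
          _ < 2 ^ (l + (t2 + 1)) * 2 ^ (d + 1) * (w + 1) := hs1P
          _ = _ := by ring
      exact Nat.lt_of_mul_lt_mul_right h3
    have hr1m : r1 < m := by rw [← hr1]; exact Nat.mod_lt _ hm0
    have h2r : 2 * r1 ≤ r2 * 2 ^ (d + 1) := by
      have h3 := Nat.div_add_mod (r2 * 2 ^ (d + 1)) m
      rw [← hr12] at h3
      have h4 : 1 ≤ r2 * 2 ^ (d + 1) / m := Nat.div_pos hge2 hm0
      have h5 : m * 1 ≤ m * (r2 * 2 ^ (d + 1) / m) := Nat.mul_le_mul_left _ h4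
      omega
    rw [hr1, hpow] at c1
    rw [hr2] at hs2P
    obtain ⟨Y, hY⟩ : ∃ Y, 2 ^ (l + (t2 + 1)) * 2 ^ (d + 1) = Y := ⟨_, rfl⟩
    have h6 : A * (r2 * 2 ^ (d + 1)) ≤ Y * (w + u + 1) := by
      calc A * (r2 * 2 ^ (d + 1)) = (A * r2) * 2 ^ (d + 1) := by ring
        _ ≤ (2 ^ (l + (t2 + 1)) * (w + u + 1)) * 2 ^ (d + 1) := Nat.mul_le_mul_right _ hs2P.le
        _ = 2 ^ (l + (t2 + 1)) * 2 ^ (d + 1) * (w + u + 1) := by ring
        _ = Y * (w + u + 1) := by rw [hY]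
    have h7 : A * (2 * r1) ≤ A * (r2 * 2 ^ (d + 1)) := Nat.mul_le_mul_left _ h2r
    rw [hY] at c1
    have h8 : Y * (2 * w) < Y * (w + u + 1) := by
      calc Y * (2 * w) = 2 * (Y * w) := by ring
        _ < 2 * (A * r1) := by omega
        _ = A * (2 * r1) := by ring
        _ ≤ _ := h7
        _ ≤ _ := h6
    have h9 := Nat.lt_of_mul_lt_mul_left h8
    omega
  · have ht : t1 = t2 := by omega
    subst ht
    have h3 : 2 ^ (l + (t1 + 1)) * (w + 1) ≤ 2 ^ (l + (t1 + 1)) * (w + u) :=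
      Nat.mul_le_mul_left _ (by omega)
    omega

/-- closed walks through `-1/M` (or a vertex above it), if this number is not `2 ^ a - 1 - 2 ^ i` with
`1 ≤ i ≤ a - 2` -/
theorem walk_point {b m l n R p M : ℕ} (hodd : m % 2 = 1) (h1 : 2 ^ l < m) (h2 : m < 2 ^ (l + 1))
    (hm : m = R + 2 ^ p * M) (hR : R * (2 ^ (b + 1) - 1) < 2 ^ p) (hM : M % 2 = 1)
    (hM1 : M % 2 ^ (b + 1) ≠ 1)
    (hs : ∀ i, 1 ≤ i → i + 1 ≤ b → M * (2 ^ i + 1) % 2 ^ (b + 1) ≠ 1)
    (hn : 2 * (b + 1 + l) + 3 ≤ n) :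
    ∃ v, 0 < v ∧ v < 2 ^ (b + 1) ∧ Walk (2 ^ (b + 1) * m - 1) n v v := by
  have hb0 : 0 < 2 ^ b := by positivity
  have hA2 : 2 ^ (b + 1) = 2 * 2 ^ b := by rw [pow_succ]; ring
  have hm0 : 0 < m := by omega
  have hM0 : 0 < M := by omega
  have hp0 : 0 < 2 ^ p := by positivity
  have hpl : p ≤ l := by
    have h3 : 2 ^ p * 1 ≤ 2 ^ p * M := Nat.mul_le_mul_left _ hM0
    have h4 : 2 ^ p < 2 ^ (l + 1) := by omega
    have := (Nat.pow_lt_pow_iff_right (by norm_num : 1 < 2)).1 h4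
    omega
  obtain ⟨c, hc, hMc, hcodd, hMz⟩ := exists_neg_inv (b := b) hM
  obtain ⟨A, hA⟩ : ∃ A, 2 ^ (b + 1) = A := ⟨_, rfl⟩
  have hb1 : 1 ≤ b := by
    by_contra hcon
    have : b = 0 := by omega
    subst this
    norm_num at hM1
    omega
  have hb2 : 2 ≤ 2 ^ b := by
    calc 2 = 2 ^ 1 := rfl
      _ ≤ 2 ^ b := Nat.pow_le_pow_right (by norm_num) hb1
  rw [Nat.mod_eq_of_lt (show 1 < 2 ^ (b + 1) by omega)] at hMz
  obtain ⟨z, hz⟩ : ∃ z, c + (z + 1) = A := ⟨A - c - 1, by omega⟩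
  have hMz' : M * (z + 1) % A = 1 := by
    rw [hA] at hMz
    rwa [show A - c = z + 1 by omega] at hMz
  have hz0 : z ≠ 0 := by
    intro h
    rw [h, zero_add, mul_one, ← hA] at hMz'
    exact hM1 hMz'
  have hzeven : z % 2 = 0 := by omega
  obtain ⟨i2, hi2⟩ : ∃ i, Nat.log 2 z = i := ⟨_, rfl⟩
  have hz1 : 2 ^ i2 ≤ z := by rw [← hi2]; exact Nat.pow_log_le_self 2 hz0
  have hz2 : z < 2 ^ (i2 + 1) := by rw [← hi2]; exact Nat.lt_pow_succ_log_self (by norm_num) _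
  have hi20 : 1 ≤ i2 := by
    by_contra hcon
    have : i2 = 0 := by omega
    subst this
    norm_num at hz2
    omega
  have hi2b : i2 < b + 1 := by
    by_contra hcon
    have : 2 ^ (b + 1) ≤ 2 ^ i2 := Nat.pow_le_pow_right (by norm_num) (not_lt.1 hcon)
    omega
  obtain ⟨z', hz'⟩ : ∃ z', z = 2 ^ i2 + z' := ⟨z - 2 ^ i2, by omega⟩
  by_cases hz'0 : z' = 0
  · -- one zero digit: it must be the top digit
    have hib : i2 = b := by
      by_contra hne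
      apply hs i2 hi20 (by omega)
      rw [hA]
      rwa [hz', hz'0, add_zero] at hMz'
    have hcv : c < 2 ^ b := by rw [hib] at hz'; omega
    obtain ⟨g1, g2, g3, g4⟩ := run_point (v := c) hm hR hc hMc (dom_refl c)
    exact ⟨c, by omega, hc, closed_walk (by omega) hodd hc g1 g2 g3 g4
      (cov_small (a := b + 1) (by omega) h1 h2 hcv) (by omega)⟩
  have hz'lt : z' < 2 ^ i2 := by
    rw [pow_succ] at hz2; omega
  obtain ⟨i1, hi1⟩ : ∃ i, Nat.log 2 z' = i := ⟨_, rfl⟩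
  have hz'1 : 2 ^ i1 ≤ z' := by rw [← hi1]; exact Nat.pow_log_le_self 2 hz'0
  have hz'2 : z' < 2 ^ (i1 + 1) := by rw [← hi1]; exact Nat.lt_pow_succ_log_self (by norm_num) _
  have hi12 : i1 < i2 := (Nat.pow_lt_pow_iff_right (by norm_num : 1 < 2)).1 (by omega)
  have hi10 : 1 ≤ i1 := by
    by_contra hcon
    have h0 : i1 = 0 := by omega
    rw [h0] at hz'2
    norm_num at hz'2
    obtain ⟨i, rfl⟩ : ∃ i, i2 = i + 1 := ⟨i2 - 1, by omega⟩
    rw [pow_succ] at hz'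
    omega
  have hbig : 2 ^ (b + 1) < M * 2 ^ (i2 + 1) := by
    rw [hA]
    have h3 : M * (z + 1) ≤ M * 2 ^ (i2 + 1) := Nat.mul_le_mul_left _ hz2
    have h4 : A + 1 ≤ M * (z + 1) := by
      have h5 := Nat.div_add_mod (M * (z + 1)) A
      rw [hMz'] at h5
      have h6 : M * (z + 1) / A ≠ 0 := by
        intro h7
        rw [h7, mul_zero, zero_add] at h5
        have h8 : 1 * (z + 1) ≤ M * (z + 1) := Nat.mul_le_mul_right _ hM0
        omega
      have h9 : A * 1 ≤ A * (M * (z + 1) / A) := Nat.mul_le_mul_left _ (Nat.pos_of_ne_zero h6)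
      omega
    omega
  obtain ⟨x, J, hx, hJ, hcov⟩ := select (a := b + 1) (p := p) (q := l - p) (M := M) hodd h1 h2 hi12
    hi10 hi2b (by omega) (by omega) hbig
  have hxz : ∀ j, x.testBit j = true → z.testBit j = true := by
    have t2 : z.testBit i2 = true := by
      rw [hz', Nat.testBit_two_pow_add_eq, Nat.testBit_lt_two_pow hz'lt]; rfl
    have t1 : z.testBit i1 = true := by
      rw [hz', Nat.testBit_two_pow_add_gt hi12]
      obtain ⟨z'', hz''⟩ : ∃ z'', z' = 2 ^ i1 + z'' := ⟨z' - 2 ^ i1, by omega⟩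
      rw [hz'', Nat.testBit_two_pow_add_eq, Nat.testBit_lt_two_pow (by
        rw [pow_succ] at hz'2; omega)]
      rfl
    intro j hj
    rcases hx with hx | hx
    · rw [hx, Nat.testBit_two_pow] at hj
      have : i2 = j := by simpa using hj
      rw [← this]; exact t2
    · rcases lt_trichotomy j i2 with h | h | h
      · rw [hx, Nat.testBit_two_pow_add_gt h, Nat.testBit_two_pow] at hj
        have : i1 = j := by simpa using hj
        rw [← this]; exact t1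
      · rw [h]; exact t2
      · exfalso
        have h3 : x < 2 ^ j := by
          have h4 : 2 ^ i1 < 2 ^ i2 := Nat.pow_lt_pow_right (by norm_num) hi12
          have h5 : 2 ^ (i2 + 1) ≤ 2 ^ j := Nat.pow_le_pow_right (by norm_num) h
          rw [pow_succ] at h5
          omega
        rw [Nat.testBit_lt_two_pow h3] at hj
        exact absurd hj (by simp)
  have hxle : x ≤ z := by omega
  have hxlt : x < 2 ^ (b + 1) := by omega
  have hdomv : Dom c (2 ^ (b + 1) - (x + 1)) := by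
    have hcz : c = 2 ^ (b + 1) - (z + 1) := by omega
    intro j hj
    rw [hcz, Nat.testBit_two_pow_sub_succ (by omega)] at hj
    rw [Nat.testBit_two_pow_sub_succ hxlt]
    simp only [Bool.and_eq_true, decide_eq_true_eq, Bool.not_eq_true'] at hj ⊢
    refine ⟨hj.1, ?_⟩
    by_contra hcon
    have h3 : x.testBit j = true := by simpa using hcon
    rw [hxz j h3] at hj
    exact absurd hj.2 (by simp)
  obtain ⟨g1, g2, g3, g4⟩ := run_point (v := 2 ^ (b + 1) - (x + 1)) hm hR hc hMc hdomv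
  exact ⟨2 ^ (b + 1) - (x + 1), by omega, by omega, closed_walk (by omega) hodd (by omega) g1 g2 g3
    g4 hcov (by omega)⟩

end Pool.Agent.H36.HZ
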