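import Mathlib
import Pool.Agent.H36.HZ.Select
import Pool.Agent.H36.HZ.Closed

/-!
# MP_106b1a_co: closed walks of all lengths `n ≥ 3 ⌊log₂ k⌋`, `k = 2 ^ a * m`
helper36
-/

namespace Pool.Agent.H36.HZ

open Pool.Agent.H53.OM Pool.Agent.H36.HY

theorem walk_main {b m l n : ℕ} (hb : 1 ≤ b) (hodd : m % 2 = 1) (h3 : 3 ≤ m) (h1 : 2 ^ l < m)
    (h2 : m < 2 ^ (l + 1))
    (hn : 3 * (b + 1 + l) ≤ n ∨ (2 * (b + 1 + l) + 3 ≤ n ∧
      ∀ p i, (p = 0 ∨ m % 2 ^ (b + 1) = 1) → 1 ≤ i → i + 1 ≤ b →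
        m / 2 ^ p * (2 ^ i + 1) % 2 ^ (b + 1) ≠ 1)) :
    ∃ v, 0 < v ∧ v < 2 ^ (b + 1) ∧ Walk (2 ^ (b + 1) * m - 1) n v v := by
  have hb2 : 2 ≤ 2 ^ b := by
    calc 2 = 2 ^ 1 := rfl
      _ ≤ 2 ^ b := Nat.pow_le_pow_right (by norm_num) hb
  have hA2 : 2 ^ (b + 1) = 2 * 2 ^ b := by rw [pow_succ]; ring
  rcases hub_cases hb hodd h3 h2 with ⟨v, N, i, hv0, hv, hi, g1, g2, g3, g4⟩ |
    ⟨R, p, M, hp, hm, hR, hM, hM1⟩
  · exact ⟨v, hv0, by omega, closed_walk (by omega) hodd (by omega) g1 g2 g3 g4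
      (cov_small (a := b + 1) (by omega) h1 h2 hv) (by omega)⟩
  · rcases hn with hn | ⟨hn, hs⟩
    · obtain ⟨c, hc, hMc, hcodd, hMz⟩ := exists_neg_inv (b := b) hM
      have hcne : c ≠ 2 ^ (b + 1) - 1 := by
        intro h
        rw [h, show 2 ^ (b + 1) - (2 ^ (b + 1) - 1) = 1 by omega, mul_one,
          Nat.mod_eq_of_lt (show 1 < 2 ^ (b + 1) by omega)] at hMz
        exact hM1 hMz
      have hpl : p ≤ l := by
        have h3 : 2 ^ p * 1 ≤ 2 ^ p * M := Nat.mul_le_mul_left _ (by omega)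
        have h4 : 2 ^ p < 2 ^ (l + 1) := by omega
        have := (Nat.pow_lt_pow_iff_right (by norm_num : 1 < 2)).1 h4
        omega
      obtain ⟨g1, g2, g3, g4⟩ := run_point (v := c) hm hR hc hMc (dom_refl c)
      obtain ⟨J, hJ, hcov⟩ := cov_gap (v := c) hb hodd h1 h2 (by omega)
      exact ⟨c, by omega, hc, closed_walk (by omega) hodd hc g1 g2 g3 g4 hcov (by omega)⟩
    · refine walk_point hodd h1 h2 hm hR hM hM1 ?_ hn
      intro i hi1 hi2
      have hRlt : R < 2 ^ p := by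
        rcases Nat.eq_zero_or_pos R with h | h
        · rw [h]; positivity
        · have h5 : R * 1 ≤ R * (2 ^ (b + 1) - 1) := Nat.mul_le_mul_left _ (by omega)
          omega
      have hdiv : m / 2 ^ p = M := by
        rw [hm, Nat.add_mul_div_left _ _ (by positivity), Nat.div_eq_of_lt hRlt, zero_add]
      have := hs p i hp hi1 hi2
      rwa [hdiv] at this

end Pool.Agent.H36.HZ
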